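import Mathlib

/-!
# Topologies induced by interval orders and semiorders: definitions
-/

namespace Pool.Agent.Lib.MP_d11cf5_gt

variable {X : Type*}

/-- An interval order. -/
structure IsIntervalOrder (r : X → X → Prop) : Prop where
  irrefl : ∀ x, ¬ r x x
  cross : ∀ x y z w, r x y → r z w → r x w ∨ r z y

/-- A semiorder. -/
structure IsSemiorder (r : X → X → Prop) : Prop extends IsIntervalOrder r where
  semi : ∀ x y z w, r x y → r y z → r x w ∨ r w z

/-- The set `U_r(x)`. -/
def up (r : X → X → Prop) (x : X) : Set X := {a | r x a}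

/-- The set `L_r(y)`. -/
def down (r : X → X → Prop) (y : X) : Set X := {b | r b y}

/-- The topology `τ_r`, generated by `∅`, `X` and the sets `U_r(x)` and `L_r(y)`. -/
def relTopology (r : X → X → Prop) : TopologicalSpace X :=
  TopologicalSpace.generateFrom ({∅, Set.univ} ∪ Set.range (up r) ∪ Set.range (down r))

/-- The members `U` of `A` such that neither `U` nor `φ U` contains `x`. -/
def missing (A : Set (Set X)) (φ : Set X → Set X) (x : X) : Set (Set X) :=
  {U | U ∈ A ∧ x ∉ U ∧ x ∉ φ U}

/-- `A` is a chain (for inclusion) of open sets and `φ` assigns to each `U ∈ A` an open set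
`φ U` disjoint from `U` so that `U ⊆ V` if and only if `φ V ⊆ φ U`; the sets `U` and `φ U` with
`U ∈ A` form, together with `∅` and `X`, a subbasis; and for every point `x` there are a least
and a greatest `U ∈ A` such that `x ∉ U ∪ φ U`. -/
structure IsBiScale (τ : TopologicalSpace X) (A : Set (Set X)) (φ : Set X → Set X) : Prop where
  chain : ∀ U ∈ A, ∀ V ∈ A, U ⊆ V ∨ V ⊆ U
  anti : ∀ U ∈ A, ∀ V ∈ A, U ⊆ V ↔ φ V ⊆ φ U
  disj : ∀ U ∈ A, Disjoint U (φ U)
  subbasis : τ = TopologicalSpace.generateFrom ({∅, Set.univ} ∪ A ∪ φ '' A)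
  least : ∀ x, ∃ R, IsLeast (missing A φ x) R
  greatest : ∀ x, ∃ G, IsGreatest (missing A φ x) G

end Pool.Agent.Lib.MP_d11cf5_gt
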