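import Pool.Agent.Lib.MP_d11cf5_gt.Defs

/-!
# Dual chains of open sets: definition
-/

set_option autoImplicit false

namespace Pool.Agent.Lib.MP_d11cf5_gt

variable {X : Type*}

/-- `D` and `V` are chains (for inclusion) of subsets of `X`, both closed under arbitrary unions
(so `∅` belongs to both), and `D ∪ V` is a subbasis of `τ`; `φ` is an order reversing bijection
from `D` onto `V`; and every point of `X` is missed by `A ∪ φ A` for some `A ∈ D`. -/
structure IsDualChains (τ : TopologicalSpace X) (D V : Set (Set X)) (φ : Set X → Set X) :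
    Prop where
  chain_left : ∀ A ∈ D, ∀ B ∈ D, A ⊆ B ∨ B ⊆ A
  chain_right : ∀ A ∈ V, ∀ B ∈ V, A ⊆ B ∨ B ⊆ A
  union_left : ∀ S : Set (Set X), S ⊆ D → ⋃₀ S ∈ D
  union_right : ∀ S : Set (Set X), S ⊆ V → ⋃₀ S ∈ V
  subbasis : τ = TopologicalSpace.generateFrom (D ∪ V)
  bij : Set.BijOn φ D V
  anti : ∀ A ∈ D, ∀ B ∈ D, A ⊆ B → φ B ⊆ φ A
  missed : ∀ x : X, ∃ A ∈ D, x ∉ A ∪ φ A

end Pool.Agent.Lib.MP_d11cf5_gt
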