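import Pool.Agent.Lib.MP_d11cf5_gt.TwoChains

/-!
# Four points: an interval order whose topology is not induced by a semiorder

On the four points `0, 1, 2, 3` let `0 < 1 < 2` and let `3` be comparable to nothing. This is an
interval order. In its topology the sets `{0}`, `{1}`, `{2}` are open and `3` has no neighbourhood
but the whole space; no semiorder induces this topology.
-/

set_option autoImplicit false

namespace Pool.Agent.Lib.MP_d11cf5_gt

open TopologicalSpace Topology

/-- The relation on `Fin 4` with `0 < 1 < 2` and `3` isolated. -/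
def fourRel (x y : Fin 4) : Prop := x < y ∧ y < 3

instance : DecidableRel fourRel := fun x y => by unfold fourRel; infer_instance

theorem fourRel_isIntervalOrder : IsIntervalOrder fourRel where
  irrefl := by decide
  cross := by decide

theorem fourRel_up_zero : up fourRel 0 = {1, 2} := by
  ext x
  change fourRel 0 x ↔ x = 1 ∨ x = 2
  revert x
  decide

theorem fourRel_up_one : up fourRel 1 = {2} := by
  ext x
  change fourRel 1 x ↔ x = 2
  revert x
  decide

theorem fourRel_down_one : down fourRel 1 = {0} := by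
  ext x
  change fourRel x 1 ↔ x = 0
  revert x
  decide

theorem fourRel_down_two : down fourRel 2 = {0, 1} := by
  ext x
  change fourRel x 2 ↔ x = 0 ∨ x = 1
  revert x
  decide

/-- The singletons `{0}`, `{1}`, `{2}` are open. -/
theorem fourRel_isOpen {i : Fin 4} (hi : i ≠ 3) : IsOpen[relTopology fourRel] {i} := by
  let _ := relTopology fourRel
  have hup : ∀ x, IsOpen (up fourRel x) := fun x =>
    isOpen_generateFrom_of_mem (Or.inl (Or.inr ⟨x, rfl⟩))
  have hdown : ∀ x, IsOpen (down fourRel x) := fun x =>
    isOpen_generateFrom_of_mem (Or.inr ⟨x, rfl⟩)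
  have hcases : i = 0 ∨ i = 1 ∨ i = 2 := by
    revert i
    decide
  rcases hcases with rfl | rfl | rfl
  · rw [← fourRel_down_one]
    exact hdown 1
  · have h1 : ({1} : Set (Fin 4)) = up fourRel 0 ∩ down fourRel 2 := by
      ext x
      change x = 1 ↔ fourRel 0 x ∧ fourRel x 2
      revert x
      decide
    rw [h1]
    exact (hup 0).inter (hdown 2)
  · rw [← fourRel_up_one]
    exact hup 1

/-- The only open set that contains `3` is the whole space. -/
theorem fourRel_eq_univ {U : Set (Fin 4)} (hU : IsOpen[relTopology fourRel] U) (h3 : 3 ∈ U) :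
    U = Set.univ := by
  induction hU with
  | basic S hS =>
    rcases hS with ((hS | hS) | ⟨x, rfl⟩) | ⟨x, rfl⟩
    · rw [hS] at h3
      exact absurd h3 (Set.notMem_empty _)
    · exact hS
    · exact absurd h3.2 (lt_irrefl _)
    · exact absurd (lt_trans h3.1 h3.2) (lt_irrefl _)
  | univ => rfl
  | inter S T _ _ ihS ihT => rw [ihS h3.1, ihT h3.2, Set.univ_inter]
  | sUnion F _ ih =>
    obtain ⟨S, hS, h3S⟩ := h3
    rw [Set.eq_univ_iff_forall]
    intro x
    refine ⟨S, hS, ?_⟩
    rw [ih S hS h3S]
    exact Set.mem_univ x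

/-- The topology of `0 < 1 < 2` with an isolated point `3` is not induced by a semiorder. -/
theorem fourPoints :
    ¬ ∃ s : Fin 4 → Fin 4 → Prop, IsSemiorder s ∧ relTopology fourRel = relTopology s := by
  rintro ⟨s, hs, hτ⟩
  have hd := isDualChains hs.toIsIntervalOrder
  have hτ' : relTopology fourRel = generateFrom (lowers s ∪ uppers s) := hτ.trans hd.subbasis
  have hopen : ∀ S ∈ lowers s ∪ uppers s, IsOpen[relTopology fourRel] S := by
    intro S hS
    rw [hτ']
    exact isOpen_generateFrom_of_mem hS
  -- a member of one of the chains that contains `3` is the whole space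
  have huniv : ∀ S ∈ lowers s ∪ uppers s, S ≠ Set.univ → (3 : Fin 4) ∉ S := fun S hS hne h3 =>
    hne (fourRel_eq_univ (hopen S hS) h3)
  -- two members that are not the whole space are disjoint
  have hdisj : ∀ A ∈ lowers s, ∀ B ∈ uppers s, A ≠ Set.univ → B ≠ Set.univ → Disjoint A B := by
    intro A hA B hB hA' hB'
    rcases disjoint_or_cover hs hA hB with h1 | h1
    · exact h1
    · have h2 : (3 : Fin 4) ∈ A ∪ B := by
        rw [h1]
        exact Set.mem_univ _
      rcases h2 with h2 | h2
      · exact absurd h2 (huniv A (Or.inl hA) hA')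
      · exact absurd h2 (huniv B (Or.inr hB) hB')
  -- the traces of the open sets: every open set that contains `i ≠ 3` contains a member that
  -- contains `i`
  have hmem : ∀ i : Fin 4, i ≠ 3 → ∃ S ∈ lowers s ∪ uppers s, S ≠ Set.univ ∧ i ∈ S ∧ S = {i} := by
    intro i hi
    have key : ∀ U : Set (Fin 4), IsOpen[relTopology fourRel] U → i ∈ U → U ≠ Set.univ →
        ∃ S ∈ lowers s ∪ uppers s, S ≠ Set.univ ∧ i ∈ S ∧ S ⊆ U := by
      intro U hU
      rw [hτ'] at hU
      induction hU with
      | basic S hS => exact fun h1 h2 => ⟨S, hS, h2, h1, Set.Subset.refl _⟩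
      | univ => exact fun _ h2 => absurd rfl h2
      | inter S T _ _ ihS ihT =>
        intro h1 h2
        by_cases hS : S = Set.univ
        · subst hS
          rw [Set.univ_inter] at h2 ⊢
          exact ihT h1.2 h2
        · by_cases hT : T = Set.univ
          · subst hT
            rw [Set.inter_univ] at h2 ⊢
            exact ihS h1.1 h2
          · obtain ⟨S', hS', hS1, hS2, hS3⟩ := ihS h1.1 hS
            obtain ⟨T', hT', hT1, hT2, hT3⟩ := ihT h1.2 hT
            -- both contain `i` and are not the whole space, so they lie in the same chain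
            have hcomp : S' ⊆ T' ∨ T' ⊆ S' := by
              rcases hS' with hS' | hS' <;> rcases hT' with hT' | hT'
              · exact hd.chain_left S' hS' T' hT'
              · exact absurd hT2 (Set.disjoint_left.1 (hdisj S' hS' T' hT' hS1 hT1) hS2)
              · exact absurd hS2 (Set.disjoint_left.1 (hdisj T' hT' S' hS' hT1 hS1) hT2)
              · exact hd.chain_right S' hS' T' hT'
            rcases hcomp with h | h
            · exact ⟨S', hS', hS1, hS2, Set.subset_inter hS3 (h.trans hT3)⟩
            · exact ⟨T', hT', hT1, hT2, Set.subset_inter (h.trans hS3) hT3⟩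
      | sUnion F _ ih =>
        rintro ⟨S, hS, hiS⟩ h2
        by_cases hSu : S = Set.univ
        · refine absurd ?_ h2
          rw [Set.eq_univ_iff_forall]
          intro x
          exact ⟨S, hS, hSu ▸ Set.mem_univ x⟩
        · obtain ⟨S', hS', h3, h4, h5⟩ := ih S hS hiS hSu
          exact ⟨S', hS', h3, h4, h5.trans (Set.subset_sUnion_of_mem hS)⟩
    have hne : ({i} : Set (Fin 4)) ≠ Set.univ := by
      intro h1
      have h2 : (3 : Fin 4) ∈ ({i} : Set (Fin 4)) := by
        rw [h1]
        exact Set.mem_univ _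
      exact hi (Set.mem_singleton_iff.1 h2).symm
    obtain ⟨S, hS, h1, h2, h3⟩ := key {i} (fourRel_isOpen hi) rfl hne
    exact ⟨S, hS, h1, h2, Set.Subset.antisymm h3 (Set.singleton_subset_iff.2 h2)⟩
  have hsing : ∀ i : Fin 4, i ≠ 3 → ({i} : Set (Fin 4)) ∈ lowers s ∨ {i} ∈ uppers s := by
    intro i hi
    obtain ⟨S, hS, -, -, rfl⟩ := hmem i hi
    exact hS
  have hnot : ∀ i j : Fin 4, i ≠ j → ¬ (({i} : Set (Fin 4)) ⊆ {j} ∨ ({j} : Set (Fin 4)) ⊆ {i}) := by
    intro i j hij h1
    rcases h1 with h1 | h1
    · exact hij (Set.singleton_subset_singleton.1 h1)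
    · exact hij (Set.singleton_subset_singleton.1 h1).symm
  have hL : ∀ i j : Fin 4, i ≠ j → ({i} : Set (Fin 4)) ∈ lowers s → ¬ ({j} : Set (Fin 4)) ∈ lowers s :=
    fun i j hij h1 h2 => hnot i j hij (hd.chain_left _ h1 _ h2)
  have hU : ∀ i j : Fin 4, i ≠ j → ({i} : Set (Fin 4)) ∈ uppers s → ¬ ({j} : Set (Fin 4)) ∈ uppers s :=
    fun i j hij h1 h2 => hnot i j hij (hd.chain_right _ h1 _ h2)
  have h01 : (0 : Fin 4) ≠ 1 := by decide
  have h02 : (0 : Fin 4) ≠ 2 := by decide
  have h12 : (1 : Fin 4) ≠ 2 := by decide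
  rcases hsing 0 (by decide) with h0 | h0 <;> rcases hsing 1 (by decide) with h1 | h1 <;>
    rcases hsing 2 (by decide) with h2 | h2
  · exact hL _ _ h01 h0 h1
  · exact hL _ _ h01 h0 h1
  · exact hL _ _ h02 h0 h2
  · exact hU _ _ h12 h1 h2
  · exact hL _ _ h12 h1 h2
  · exact hU _ _ h02 h0 h2
  · exact hU _ _ h01 h0 h1
  · exact hU _ _ h01 h0 h1

end Pool.Agent.Lib.MP_d11cf5_gt
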