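import Pool.Agent.Lib.MP_d11cf5_gt.Defs

/-!
# Orderable, preorderable and generalized ordered topologies, and some spaces: definitions
-/

set_option autoImplicit false

namespace Pool.Agent.Lib.MP_d11cf5_gt

open Topology

variable {X : Type*}

/-- A total preorder. -/
def IsTotalPreorder (s : X → X → Prop) : Prop :=
  (∀ x y, s x y ∨ s y x) ∧ ∀ x y z, s x y → s y z → s x z

/-- The strict part of a relation. -/
def strict (s : X → X → Prop) (x y : X) : Prop := s x y ∧ ¬ s y x

/-- The order topology of some total preorder. -/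
def IsPreorderable (τ : TopologicalSpace X) : Prop :=
  ∃ s : X → X → Prop, IsTotalPreorder s ∧ τ = relTopology (strict s)

/-- The order topology of some total order. -/
def IsOrderable (τ : TopologicalSpace X) : Prop :=
  ∃ s : X → X → Prop, IsTotalPreorder s ∧ (∀ x y, s x y → s y x → x = y) ∧
    τ = relTopology (strict s)

/-- A generalized ordered topology: for some total order the open rays are open and every point has
a neighbourhood base of order convex open sets. -/
def IsGeneralizedOrdered (τ : TopologicalSpace X) : Prop :=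
  ∃ s : X → X → Prop, IsTotalPreorder s ∧ (∀ x y, s x y → s y x → x = y) ∧
    (∀ x, IsOpen[τ] {y | strict s x y} ∧ IsOpen[τ] {y | strict s y x}) ∧
    ∀ U : Set X, IsOpen[τ] U → ∀ x ∈ U, ∃ W : Set X, IsOpen[τ] W ∧ x ∈ W ∧ W ⊆ U ∧
      ∀ a ∈ W, ∀ b ∈ W, ∀ c, s a c → s c b → c ∈ W

/-- The topology of the Sorgenfrey line, with basis the intervals `[a, b)`. -/
def sorgenfrey : TopologicalSpace ℝ :=
  TopologicalSpace.generateFrom {S : Set ℝ | ∃ a b : ℝ, S = Set.Ico a b}

/-- The topology of the Michael line: the usual topology of `ℝ` with the irrational points made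
isolated. -/
def michael : TopologicalSpace ℝ :=
  TopologicalSpace.generateFrom {S : Set ℝ | IsOpen S ∨ ∃ x, Irrational x ∧ S = {x}}

/-- The disjoint sum of `[0, 1]`, `(1, 2)` and `[2, 3]`: the usual topology of `[0, 3]` with the
sets `[0, 1]` and `[2, 3]` made open. -/
def threePieces : TopologicalSpace (Set.Icc (0 : ℝ) 3) :=
  TopologicalSpace.generateFrom {S : Set (Set.Icc (0 : ℝ) 3) |
    IsOpen S ∨ S = {x : Set.Icc (0 : ℝ) 3 | (x : ℝ) ≤ 1} ∨ S = {x : Set.Icc (0 : ℝ) 3 | 2 ≤ (x : ℝ)}}

end Pool.Agent.Lib.MP_d11cf5_gt
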