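import Pool.Agent.Lib.MP_d11cf5_gt.T1Orderable
import Pool.Agent.Lib.MP_d11cf5_gt.Orderable

/-!
# `T₁` topologies induced by interval orders are generalized ordered topologies
-/

set_option autoImplicit false

namespace Pool.Agent.Lib.MP_d11cf5_gt

open TopologicalSpace Topology

open T1M in
theorem t1_generalizedOrdered {X : Type*} {r : X → X → Prop} (hr : IsIntervalOrder r)
    (h1 : @T1Space X (relTopology r)) : IsGeneralizedOrdered (relTopology r) := by
  classical
  have hdc := isDualChains hr
  have hD := hdc.chain_left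
  have hV := hdc.chain_right
  have h1' : @T1Space X (generateFrom (lowers r ∪ uppers r)) := by
    rw [← hdc.subbasis]
    exact h1
  have hstrict : ∀ x y, strict (fun x y => x = y ∨ lt' (lowers r) x y) x y ↔
      lt' (lowers r) x y := by
    intro x y
    constructor
    · rintro ⟨rfl | h, h'⟩
      · exact absurd (Or.inl rfl) h'
      · exact h
    · intro h
      refine ⟨Or.inr h, ?_⟩
      rintro (rfl | h')
      · exact lt_asymm' hD h h
      · exact lt_asymm' hD h h'
  refine ⟨fun x y => x = y ∨ lt' (lowers r) x y, ⟨?_, ?_⟩, ?_, ?_, ?_⟩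
  · intro x y
    by_cases hxy : x = y
    · exact Or.inl (Or.inl hxy)
    · rcases total hV h1' hxy with h | h
      · exact Or.inl (Or.inr h)
      · exact Or.inr (Or.inr h)
  · rintro x y z (rfl | h) (rfl | h')
    · exact Or.inl rfl
    · exact Or.inr h'
    · exact Or.inr h
    · exact Or.inr (lt_trans' hD h h')
  · rintro x y (rfl | h) (h' | h')
    · rfl
    · rfl
    · exact h'.symm
    · exact absurd h' (lt_asymm' hD h)
  · intro x
    constructor
    · have h3 : {y | strict (fun x y => x = y ∨ lt' (lowers r) x y) x y} =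
          ⋃₀ {B | B ∈ uppers r ∧ x ∉ B} := by
        ext z
        rw [Set.mem_ofPred_eq, hstrict, lt_iff hD hV h1']
        constructor
        · rintro ⟨B, hB, hzB, hxB⟩
          exact ⟨B, ⟨hB, hxB⟩, hzB⟩
        · rintro ⟨B, ⟨hB, hxB⟩, hzB⟩
          exact ⟨B, hB, hzB, hxB⟩
      rw [h3, hdc.subbasis]
      exact @isOpen_sUnion X (generateFrom (lowers r ∪ uppers r)) _
        fun B hB => isOpen_generateFrom_of_mem (Or.inr hB.1)
    · have h3 : {y | strict (fun x y => x = y ∨ lt' (lowers r) x y) y x} =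
          ⋃₀ {A | A ∈ lowers r ∧ x ∉ A} := by
        ext z
        rw [Set.mem_ofPred_eq, hstrict]
        constructor
        · rintro ⟨A, hA, hzA, hyA⟩
          exact ⟨A, ⟨hA, hyA⟩, hzA⟩
        · rintro ⟨A, ⟨hA, hyA⟩, hzA⟩
          exact ⟨A, hA, hzA, hyA⟩
      rw [h3, hdc.subbasis]
      exact @isOpen_sUnion X (generateFrom (lowers r ∪ uppers r)) _
        fun B hB => isOpen_generateFrom_of_mem (Or.inl hB.1)
  · intro U hU
    have hU' : GenerateOpen (lowers r ∪ uppers r) U := by
      rw [hdc.subbasis] at hU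
      exact hU
    have hop : ∀ S ∈ lowers r ∪ uppers r, IsOpen[relTopology r] S := by
      intro S hS
      rw [hdc.subbasis]
      exact isOpen_generateFrom_of_mem hS
    clear hU
    induction hU' with
    | basic S hS =>
      intro x hx
      refine ⟨S, hop S hS, hx, Set.Subset.refl _, ?_⟩
      rcases hS with hS | hS
      · rintro a ha b hb c hac (rfl | ⟨A, hA, hcA, hbA⟩)
        · exact hb
        · rcases hD S hS A hA with h3 | h3
          · exact absurd (h3 hb) hbA
          · exact h3 hcA
      · rintro a ha b hb c (rfl | hac) hcb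
        · exact ha
        · obtain ⟨B, hB, hcB, haB⟩ := (lt_iff hD hV h1').1 hac
          rcases hV S hS B hB with h3 | h3
          · exact absurd (h3 ha) haB
          · exact h3 hcB
    | univ =>
      intro x _
      exact ⟨Set.univ, @isOpen_univ _ (relTopology r), Set.mem_univ x, Set.Subset.refl _,
        fun _ _ _ _ _ _ _ => Set.mem_univ _⟩
    | inter S T _ _ ihS ihT =>
      rintro x ⟨hxS, hxT⟩
      obtain ⟨W, hW, hxW, hWS, hWc⟩ := ihS x hxS
      obtain ⟨W', hW', hxW', hWS', hWc'⟩ := ihT x hxT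
      refine ⟨W ∩ W', @IsOpen.inter X (relTopology r) _ _ hW hW', ⟨hxW, hxW'⟩,
        Set.inter_subset_inter hWS hWS', ?_⟩
      rintro a ⟨ha, ha'⟩ b ⟨hb, hb'⟩ c hac hcb
      exact ⟨hWc a ha b hb c hac hcb, hWc' a ha' b hb' c hac hcb⟩
    | sUnion F _ ih =>
      rintro x ⟨S, hS, hxS⟩
      obtain ⟨W, hW, hxW, hWS, hWc⟩ := ih S hS x hxS
      exact ⟨W, hW, hxW, hWS.trans (Set.subset_sUnion_of_mem hS), hWc⟩

theorem t1_orderable' {X : Type*} {r : X → X → Prop} (hr : IsIntervalOrder r)
    (h1 : @T1Space X (relTopology r))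
    (h2 : @CompactSpace X (relTopology r) ∨ @PreconnectedSpace X (relTopology r)) :
    IsOrderable (relTopology r) := by
  obtain ⟨l, hl⟩ := t1_orderable hr h1 h2
  refine ⟨l.le, ⟨l.le_total, fun x y z => l.le_trans x y z⟩, fun x y => l.le_antisymm x y, ?_⟩
  rw [hl]
  congr 1
  funext x y
  exact propext (l.lt_iff_le_not_ge x y)

end Pool.Agent.Lib.MP_d11cf5_gt
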