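import Pool.Agent.Lib.MP_d11cf5_gt.Orderable

/-!
# The Michael line is induced by a semiorder
-/

set_option autoImplicit false

namespace Pool.Agent.Lib.MP_d11cf5_gt

open TopologicalSpace Topology

namespace MIC

/-- `x + 1 < y`, or `y = x + 1` and `x` is irrational. -/
def rel (x y : ℝ) : Prop := x + 1 < y ∨ (y = x + 1 ∧ Irrational x)

theorem rel_le {x y : ℝ} (h : rel x y) : x + 1 ≤ y := by
  rcases h with h | h
  · exact h.le
  · exact h.1.ge

theorem rel_isSemiorder : IsSemiorder rel where
  irrefl x h := by
    have := rel_le h
    linarith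
  cross x y z w hxy hzw := by
    have h1 := rel_le hzw
    rcases lt_trichotomy w (x + 1) with h | h | h
    · right
      left
      have := rel_le hxy
      linarith
    · rcases hxy with h2 | h2
      · right
        left
        linarith
      · left
        right
        exact ⟨h, h2.2⟩
    · left
      left
      exact h
  semi x y z w hxy hyz := by
    have h1 := rel_le hxy
    have h2 := rel_le hyz
    rcases lt_trichotomy w (x + 1) with h | h | h
    · right
      left
      linarith
    · rcases hxy with h3 | h3
      · right
        left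
        linarith
      · left
        right
        exact ⟨h, h3.2⟩
    · left
      left
      exact h

theorem irr_add {x : ℝ} (h : Irrational x) : Irrational (x + 1) := by
  simpa using h.add_natCast 1

theorem irr_sub {x : ℝ} (h : Irrational x) : Irrational (x - 1) := by
  simpa using h.sub_natCast 1

theorem up_rat {x : ℝ} (h : ¬ Irrational x) : up rel x = Set.Ioi (x + 1) := by
  ext y
  change rel x y ↔ x + 1 < y
  unfold rel
  tauto

theorem up_irr {x : ℝ} (h : Irrational x) : up rel x = Set.Ioi (x + 1) ∪ {x + 1} := by
  ext y
  change rel x y ↔ x + 1 < y ∨ y = x + 1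
  unfold rel
  tauto

theorem down_rat {y : ℝ} (h : ¬ Irrational y) : down rel y = Set.Iio (y - 1) := by
  ext x
  change rel x y ↔ x < y - 1
  unfold rel
  constructor
  · rintro (h1 | ⟨h1, h2⟩)
    · linarith
    · rw [h1] at h
      exact absurd (irr_add h2) h
  · intro h1
    left
    linarith

theorem down_irr {y : ℝ} (h : Irrational y) : down rel y = Set.Iio (y - 1) ∪ {y - 1} := by
  ext x
  change rel x y ↔ x < y - 1 ∨ x = y - 1
  unfold rel
  constructor
  · rintro (h1 | ⟨h1, -⟩)
    · left
      linarith
    · right
      linarith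
  · rintro (h1 | h1)
    · left
      linarith
    · right
      refine ⟨by linarith, ?_⟩
      rw [h1]
      exact irr_sub h

theorem michael_open_of_open {S : Set ℝ} (hS : IsOpen S) : IsOpen[michael] S :=
  isOpen_generateFrom_of_mem (Or.inl hS)

theorem michael_open_singleton {x : ℝ} (hx : Irrational x) : IsOpen[michael] {x} :=
  isOpen_generateFrom_of_mem (Or.inr ⟨x, hx, rfl⟩)

theorem rel_up_open (x : ℝ) : IsOpen[relTopology rel] (up rel x) :=
  isOpen_generateFrom_of_mem (Or.inl (Or.inr ⟨x, rfl⟩))

theorem rel_down_open (x : ℝ) : IsOpen[relTopology rel] (down rel x) :=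
  isOpen_generateFrom_of_mem (Or.inr ⟨x, rfl⟩)

theorem rel_Ioi_open (a : ℝ) : IsOpen[relTopology rel] (Set.Ioi a) := by
  have h : Set.Ioi a = ⋃ x : Set.Ioi a, up rel ((x : ℝ) - 1) := by
    ext y
    rw [Set.mem_iUnion]
    constructor
    · intro hy
      obtain ⟨x, hx1, hx2⟩ := exists_between (show a < y from hy)
      refine ⟨⟨x, hx1⟩, Or.inl ?_⟩
      change x - 1 + 1 < y
      linarith
    · rintro ⟨⟨x, hx⟩, hy⟩
      have h1 := rel_le hy
      have h2 : a < x := hx
      change a < y
      change x - 1 + 1 ≤ y at h1
      linarith
  rw [h]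
  let _ := relTopology rel
  exact isOpen_iUnion fun x => rel_up_open _

theorem rel_Iio_open (a : ℝ) : IsOpen[relTopology rel] (Set.Iio a) := by
  have h : Set.Iio a = ⋃ x : Set.Iio a, down rel ((x : ℝ) + 1) := by
    ext y
    rw [Set.mem_iUnion]
    constructor
    · intro hy
      obtain ⟨x, hx1, hx2⟩ := exists_between (show y < a from hy)
      refine ⟨⟨x, hx2⟩, Or.inl ?_⟩
      change y + 1 < x + 1
      linarith
    · rintro ⟨⟨x, hx⟩, hy⟩
      have h1 := rel_le hy
      have h2 : x < a := hx
      change y < a
      change y + 1 ≤ x + 1 at h1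
      linarith
  rw [h]
  let _ := relTopology rel
  exact isOpen_iUnion fun x => rel_down_open _

theorem rel_open_of_open {S : Set ℝ} (hS : IsOpen S) : IsOpen[relTopology rel] S := by
  have h : relTopology rel ≤ (inferInstance : TopologicalSpace ℝ) := by
    rw [OrderTopology.topology_eq_generate_intervals (α := ℝ)]
    apply le_generateFrom
    rintro T ⟨a, rfl | rfl⟩
    · exact rel_Ioi_open a
    · exact rel_Iio_open a
  exact h S hS

theorem michael_eq : michael = relTopology rel := by
  apply le_antisymm
  · apply le_generateFrom
    rintro S (((rfl | hS) | ⟨x, rfl⟩) | ⟨y, rfl⟩)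
    · exact @isOpen_empty _ michael
    · rw [Set.mem_singleton_iff.1 hS]
      exact @isOpen_univ _ michael
    · by_cases hx : Irrational x
      · rw [up_irr hx]
        exact @IsOpen.union _ _ _ michael (michael_open_of_open isOpen_Ioi)
          (michael_open_singleton (irr_add hx))
      · rw [up_rat hx]
        exact michael_open_of_open isOpen_Ioi
    · by_cases hy : Irrational y
      · rw [down_irr hy]
        exact @IsOpen.union _ _ _ michael (michael_open_of_open isOpen_Iio)
          (michael_open_singleton (irr_sub hy))
      · rw [down_rat hy]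
        exact michael_open_of_open isOpen_Iio
  · apply le_generateFrom
    rintro S (hS | ⟨x, hx, rfl⟩)
    · exact rel_open_of_open hS
    · have h : ({x} : Set ℝ) = up rel (x - 1) ∩ down rel (x + 1) := by
        rw [up_irr (irr_sub hx), down_irr (irr_add hx)]
        ext y
        change y = x ↔ (x - 1 + 1 < y ∨ y = x - 1 + 1) ∧ (y < x + 1 - 1 ∨ y = x + 1 - 1)
        rw [sub_add_cancel, add_sub_cancel_right]
        constructor
        · intro h1
          exact ⟨Or.inr h1, Or.inr h1⟩
        · rintro ⟨h1 | h1, h2⟩
          · rcases h2 with h2 | h2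
            · linarith
            · exact h2
          · exact h1
      rw [h]
      exact (relTopology rel).isOpen_inter _ _ (rel_up_open _) (rel_down_open _)

end MIC

/-- The Michael line is induced by a semiorder. -/
theorem michael_semiorder : ∃ r : ℝ → ℝ → Prop, IsSemiorder r ∧ michael = relTopology r :=
  ⟨MIC.rel, MIC.rel_isSemiorder, MIC.michael_eq⟩

end Pool.Agent.Lib.MP_d11cf5_gt
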