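import Pool.Agent.Lib.MP_d11cf5_gt.T1Structure

/-!
# `(0, 1) ∪ {2}` is a generalized ordered space that no interval order induces
-/

set_option autoImplicit false

namespace Pool.Agent.Lib.MP_d11cf5_gt

open TopologicalSpace Topology

namespace NIN

/-- In a space with a total order with open rays, a connected set that does not contain `c` lies on
one side of `c`. -/
theorem dich {X : Type*} [TopologicalSpace X] {s : X → X → Prop}
    (htot : ∀ x y, s x y ∨ s y x) (hanti : ∀ x y, s x y → s y x → x = y)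
    (hrays : ∀ x, IsOpen {y | strict s x y} ∧ IsOpen {y | strict s y x}) {C : Set X}
    (hC : IsPreconnected C) {c : X} (hc : c ∉ C) :
    (∀ x ∈ C, strict s x c) ∨ ∀ x ∈ C, strict s c x := by
  refine hC.subset_or_subset (hrays c).2 (hrays c).1 ?_ ?_
  · rw [Set.disjoint_left]
    intro x h1 h2
    exact h1.2 h2.1
  · intro x hx
    have hxc : x ≠ c := by
      rintro rfl
      exact hc hx
    rcases htot x c with h | h
    · exact Or.inl ⟨h, fun h' => hxc (hanti x c h h')⟩
    · exact Or.inr ⟨h, fun h' => hxc (hanti x c h' h)⟩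

/-- The space. -/
abbrev Y : Type := {x : ℝ // (0 < x ∧ x < 1) ∨ x = 2}

/-- The point `2`. -/
def p : Y := ⟨2, Or.inr rfl⟩

/-- The open interval. -/
def M : Set Y := {x | x.1 < 1}

theorem mem_M {x : Y} (hx : x ≠ p) : x ∈ M := by
  rcases x.2 with h | h
  · exact h.2
  · exact absurd (Subtype.ext h) hx

theorem p_notMem : p ∉ M := by
  intro h
  have h1 : (2 : ℝ) < 1 := h
  norm_num at h1

theorem pos {x : Y} (hx : x ∈ M) : 0 < x.1 := by
  rcases x.2 with h | h
  · exact h.1
  · have h1 : x.1 < 1 := hx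
    rw [h] at h1
    norm_num at h1

theorem isOpen_M : IsOpen M := isOpen_lt continuous_subtype_val continuous_const

theorem isOpen_p : IsOpen ({p} : Set Y) := by
  have h : ({p} : Set Y) = {x | 1 < x.1} := by
    ext x
    constructor
    · intro hx
      rw [Set.mem_singleton_iff.1 hx]
      change (1 : ℝ) < 2
      norm_num
    · intro hx
      by_contra hcon
      have h1 : x.1 < 1 := mem_M hcon
      have h2 : 1 < x.1 := hx
      linarith
  rw [h]
  exact isOpen_lt continuous_const continuous_subtype_val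

theorem preconn {C : Set Y} (hC : IsPreconnected (Subtype.val '' C)) : IsPreconnected C :=
  IsInducing.subtypeVal.isPreconnected_image.1 hC

theorem preconn_M : IsPreconnected M := by
  apply preconn
  have h : Subtype.val '' M = Set.Ioo (0 : ℝ) 1 := by
    ext x
    constructor
    · rintro ⟨y, hy, rfl⟩
      exact ⟨pos hy, hy⟩
    · rintro ⟨h1, h2⟩
      exact ⟨⟨x, Or.inl ⟨h1, h2⟩⟩, h2, rfl⟩
  rw [h]
  exact isPreconnected_Ioo

theorem preconn_Icc {a b : Y} (ha : a ∈ M) (hb : b ∈ M) :
    IsPreconnected {x : Y | a.1 ≤ x.1 ∧ x.1 ≤ b.1} := by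
  apply preconn
  have h : Subtype.val '' {x : Y | a.1 ≤ x.1 ∧ x.1 ≤ b.1} = Set.Icc a.1 b.1 := by
    ext x
    constructor
    · rintro ⟨y, hy, rfl⟩
      exact hy
    · rintro ⟨h1, h2⟩
      refine ⟨⟨x, Or.inl ⟨lt_of_lt_of_le (pos ha) h1, lt_of_le_of_lt h2 hb⟩⟩, ⟨h1, h2⟩, rfl⟩
  rw [h]
  exact isPreconnected_Icc

/-- `M` has no greatest element for a total order with open rays. -/
theorem no_max {s : Y → Y → Prop}
    (htot : ∀ x y, s x y ∨ s y x) (hanti : ∀ x y, s x y → s y x → x = y)
    (hrays : ∀ x, IsOpen {y | strict s x y} ∧ IsOpen {y | strict s y x}) {m : Y} (hm : m ∈ M) :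
    ∃ x ∈ M, strict s m x := by
  by_contra hcon
  push Not at hcon
  have hle : ∀ x ∈ M, s x m := by
    intro x hx
    by_contra h1
    exact hcon x hx ⟨(htot x m).resolve_left h1, h1⟩
  have hm0 := pos hm
  have hm1 : m.1 < 1 := hm
  let a : Y := ⟨m.1 / 2, Or.inl ⟨by linarith, by linarith⟩⟩
  let b : Y := ⟨(m.1 + 1) / 2, Or.inl ⟨by linarith, by linarith⟩⟩
  have ha : a ∈ M := by
    change m.1 / 2 < 1
    linarith
  have hb : b ∈ M := by
    change (m.1 + 1) / 2 < 1
    linarith
  have ham : a.1 < m.1 := by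
    change m.1 / 2 < m.1
    linarith
  have hmb : m.1 < b.1 := by
    change m.1 < (m.1 + 1) / 2
    linarith
  rcases htot a b with hab | hba
  · have hC := preconn_Icc ha hm
    have hbC : b ∉ {x : Y | a.1 ≤ x.1 ∧ x.1 ≤ m.1} := fun h => absurd h.2 (not_le.2 hmb)
    rcases dich htot hanti hrays hC hbC with h1 | h1
    · exact (h1 m ⟨ham.le, le_refl _⟩).2 (hle b hb)
    · exact (h1 a ⟨le_refl _, ham.le⟩).2 hab
  · have hC := preconn_Icc hm hb
    have haC : a ∉ {x : Y | m.1 ≤ x.1 ∧ x.1 ≤ b.1} := fun h => absurd h.1 (not_le.2 ham)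
    rcases dich htot hanti hrays hC haC with h1 | h1
    · exact (h1 m ⟨le_refl _, hmb.le⟩).2 (hle a ha)
    · exact (h1 b ⟨hmb.le, le_refl _⟩).2 hba

theorem M_nonempty : M.Nonempty :=
  ⟨⟨1 / 2, Or.inl ⟨by norm_num, by norm_num⟩⟩, by
    change (1 / 2 : ℝ) < 1
    norm_num⟩

theorem not_dual {s : Y → Y → Prop} (h : IsDualOrder instTopologicalSpaceSubtype s) : False := by
  have hrays : ∀ x : Y, IsOpen {y | strict s x y} ∧ IsOpen {y | strict s y x} := h.rays
  obtain ⟨φ, hbij, hanti, -⟩ := h.dual
  obtain ⟨m₀, hm₀⟩ := M_nonempty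
  have hneM : ∀ {S : Set Y}, S = ∅ → S ≠ Set.univ := by
    rintro S rfl h1
    have h2 : m₀ ∈ (∅ : Set Y) := by
      rw [h1]
      exact Set.mem_univ _
    exact h2
  have hpne : ({p} : Set Y) ≠ Set.univ := by
    intro h1
    have h2 : m₀ ∈ ({p} : Set Y) := by
      rw [h1]
      exact Set.mem_univ _
    rw [Set.mem_singleton_iff.1 h2] at hm₀
    exact p_notMem hm₀
  have hMne : M ≠ Set.univ := by
    intro h1
    apply p_notMem
    rw [h1]
    exact Set.mem_univ _
  -- the rays are segments
  have hlt_of : ∀ {x y z : Y}, s x y → strict s y z → strict s x z := by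
    intro x y z h1 h2
    exact ⟨h.trans _ _ _ h1 h2.1, fun h3 => h2.2 (h.trans _ _ _ h3 h1)⟩
  have hlt_of' : ∀ {x y z : Y}, strict s x y → s y z → strict s x z := by
    intro x y z h1 h2
    exact ⟨h.trans _ _ _ h1.1 h2, fun h3 => h1.2 (h.trans _ _ _ h2 h3)⟩
  have hI : ∀ x, {y | strict s y x} ∈ openInitial instTopologicalSpaceSubtype s := by
    intro x
    refine ⟨(hrays x).2, fun a ha b hb => hlt_of hb ha, fun h1 => ?_⟩
    have h2 : x ∈ {y | strict s y x} := by
      rw [h1]
      exact Set.mem_univ _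
    exact absurd h2.1 h2.2
  have hF : ∀ x, {y | strict s x y} ∈ openFinal instTopologicalSpaceSubtype s := by
    intro x
    refine ⟨(hrays x).1, fun a ha b hb => hlt_of' ha hb, fun h1 => ?_⟩
    have h2 : x ∈ {y | strict s x y} := by
      rw [h1]
      exact Set.mem_univ _
    exact absurd h2.1 h2.2
  rcases dich h.total h.antisymm hrays preconn_M p_notMem with hp | hp
  · -- `p` is the greatest element
    have hgr : ∀ x, s x p := by
      intro x
      by_cases hx : x = p
      · rw [hx]
        exact (h.total p p).elim id id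
      · exact (hp x (mem_M hx)).1
    have hpF : ({p} : Set Y) ∈ openFinal instTopologicalSpaceSubtype s := by
      refine ⟨isOpen_p, ?_, fun h1 => absurd h1 hpne⟩
      intro a ha b hb
      rw [Set.mem_singleton_iff.1 ha] at hb
      by_contra hcon
      exact (hp b (mem_M hcon)).2 hb
    have h0F : (∅ : Set Y) ∈ openFinal instTopologicalSpaceSubtype s :=
      ⟨isOpen_empty, fun a ha => absurd ha (Set.notMem_empty a), fun h1 => absurd h1 (hneM rfl)⟩
    have hMI : M ∈ openInitial instTopologicalSpaceSubtype s := by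
      refine ⟨isOpen_M, ?_, fun h1 => absurd h1 hMne⟩
      intro a ha b hb
      apply mem_M
      rintro rfl
      exact (hp a ha).2 hb
    have hsub : ∀ B ∈ openInitial instTopologicalSpaceSubtype s, B ⊆ M := by
      intro B hB x hx
      apply mem_M
      rintro rfl
      refine hB.2.2 (Set.eq_univ_of_forall fun y => hB.2.1 p hx y (hgr y)) ⟨p, hgr⟩
    obtain ⟨A, hA, hφA⟩ := hbij.surjOn hpF
    obtain ⟨A₀, hA₀, hφA₀⟩ := hbij.surjOn h0F
    have hφM : φ M = ∅ := by
      have h1 := hanti A₀ hA₀ M hMI (hsub A₀ hA₀)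
      rw [hφA₀] at h1
      exact Set.subset_empty_iff.1 h1
    have hex : ∃ m ∈ M, m ∉ A := by
      by_contra hcon
      push Not at hcon
      have h1 : A = M := Set.Subset.antisymm (hsub A hA) hcon
      rw [h1, hφM] at hφA
      exact absurd hφA (Set.singleton_nonempty p).ne_empty.symm
    obtain ⟨m, hm, hmA⟩ := hex
    obtain ⟨m', hm', hmm'⟩ := no_max h.total h.antisymm hrays hm
    have hAB : A ⊆ {y | strict s y m'} := by
      intro a ha
      have h1 : s a m := by
        by_contra h2
        exact hmA (hA.2.1 a ha m ((h.total a m).resolve_left h2))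
      exact hlt_of h1 hmm'
    have h1 := hanti A hA _ (hI m') hAB
    rw [hφA] at h1
    rcases Set.subset_singleton_iff_eq.1 h1 with h2 | h2
    · have h3 : {y | strict s y m'} = M := hbij.injOn (hI m') hMI (h2.trans hφM.symm)
      have h4 : m' ∈ {y | strict s y m'} := by
        rw [h3]
        exact hm'
      exact absurd h4.1 h4.2
    · have h3 : {y | strict s y m'} = A := hbij.injOn (hI m') hA (h2.trans hφA.symm)
      apply hmA
      rw [← h3]
      exact hmm'
  · -- `p` is the least element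
    have hle : ∀ x, s p x := by
      intro x
      by_cases hx : x = p
      · rw [hx]
        exact (h.total p p).elim id id
      · exact (hp x (mem_M hx)).1
    have hpI : ({p} : Set Y) ∈ openInitial instTopologicalSpaceSubtype s := by
      refine ⟨isOpen_p, ?_, fun h1 => absurd h1 hpne⟩
      intro a ha b hb
      rw [Set.mem_singleton_iff.1 ha] at hb
      by_contra hcon
      exact (hp b (mem_M hcon)).2 hb
    have h0I : (∅ : Set Y) ∈ openInitial instTopologicalSpaceSubtype s :=
      ⟨isOpen_empty, fun a ha => absurd ha (Set.notMem_empty a), fun h1 => absurd h1 (hneM rfl)⟩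
    have hMF : M ∈ openFinal instTopologicalSpaceSubtype s := by
      refine ⟨isOpen_M, ?_, fun h1 => absurd h1 hMne⟩
      intro a ha b hb
      apply mem_M
      rintro rfl
      exact (hp a ha).2 hb
    have hsub : ∀ B ∈ openFinal instTopologicalSpaceSubtype s, B ⊆ M := by
      intro B hB x hx
      apply mem_M
      rintro rfl
      refine hB.2.2 (Set.eq_univ_of_forall fun y => hB.2.1 p hx y (hle y)) ⟨p, hle⟩
    have hφ0 : φ ∅ = M := by
      apply Set.Subset.antisymm (hsub _ (hbij.mapsTo h0I))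
      obtain ⟨A, hA, hφA⟩ := hbij.surjOn hMF
      rw [← hφA]
      exact hanti ∅ h0I A hA (Set.empty_subset A)
    have hQ : φ {p} ∈ openFinal instTopologicalSpaceSubtype s := hbij.mapsTo hpI
    have hex : ∃ m ∈ M, m ∉ φ {p} := by
      by_contra hcon
      push Not at hcon
      have h1 : φ {p} = M := Set.Subset.antisymm (hsub _ hQ) hcon
      have h2 : ({p} : Set Y) = ∅ := hbij.injOn hpI h0I (h1.trans hφ0.symm)
      exact absurd h2 (Set.singleton_nonempty p).ne_empty
    obtain ⟨m, hm, hmQ⟩ := hex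
    have hrays' : ∀ x : Y, IsOpen {y | strict (fun a b => s b a) x y} ∧
        IsOpen {y | strict (fun a b => s b a) y x} := fun x => ⟨(hrays x).2, (hrays x).1⟩
    obtain ⟨m', hm', hmm'⟩ := no_max (s := fun a b => s b a) (fun x y => h.total y x)
      (fun x y h1 h2 => h.antisymm x y h2 h1) hrays' hm
    have hmm : strict s m' m := hmm'
    obtain ⟨C, hC, hφC⟩ := hbij.surjOn (hF m')
    by_cases hpC : p ∈ C
    · have h1 := hanti {p} hpI C hC (Set.singleton_subset_iff.2 hpC)
      rw [hφC] at h1
      exact hmQ (h1 hmm)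
    · have hC0 : C = ∅ := by
        rw [Set.eq_empty_iff_forall_notMem]
        intro x hx
        exact hpC (hC.2.1 x hx p (hle x))
      rw [hC0, hφ0] at hφC
      have h4 : m' ∈ {y | strict s m' y} := by
        rw [← hφC]
        exact hm'
      exact absurd h4.1 h4.2

end NIN

/-- The subspace `(0, 1) ∪ {2}` of the real line is a generalized ordered space whose topology is
not induced by an interval order. -/
theorem notInterval :
    IsGeneralizedOrdered
      (instTopologicalSpaceSubtype : TopologicalSpace {x : ℝ // (0 < x ∧ x < 1) ∨ x = 2}) ∧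
    ¬ ∃ r : {x : ℝ // (0 < x ∧ x < 1) ∨ x = 2} → {x : ℝ // (0 < x ∧ x < 1) ∨ x = 2} → Prop,
      IsIntervalOrder r ∧ (instTopologicalSpaceSubtype :
        TopologicalSpace {x : ℝ // (0 < x ∧ x < 1) ∨ x = 2}) = relTopology r := by
  constructor
  · have hst : ∀ x y : {x : ℝ // (0 < x ∧ x < 1) ∨ x = 2},
        strict (fun a b : {x : ℝ // (0 < x ∧ x < 1) ∨ x = 2} => a.1 ≤ b.1) x y ↔ x.1 < y.1 := by
      intro x y
      exact ⟨fun h => lt_of_not_ge h.2, fun h => ⟨h.le, not_le.2 h⟩⟩
    refine ⟨fun x y => x.1 ≤ y.1, ⟨fun x y => le_total _ _, fun x y z h1 h2 => h1.trans h2⟩,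
      fun x y h1 h2 => Subtype.ext (le_antisymm h1 h2), ?_, ?_⟩
    · intro x
      constructor
      · have h : {y | strict (fun a b : {x : ℝ // (0 < x ∧ x < 1) ∨ x = 2} => a.1 ≤ b.1) x y} =
            {y : {x : ℝ // (0 < x ∧ x < 1) ∨ x = 2} | x.1 < y.1} := by
          ext y
          exact hst x y
        rw [h]
        exact isOpen_lt continuous_const continuous_subtype_val
      · have h : {y | strict (fun a b : {x : ℝ // (0 < x ∧ x < 1) ∨ x = 2} => a.1 ≤ b.1) y x} =
            {y : {x : ℝ // (0 < x ∧ x < 1) ∨ x = 2} | y.1 < x.1} := by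
          ext y
          exact hst y x
        rw [h]
        exact isOpen_lt continuous_subtype_val continuous_const
    · intro U hU x hx
      obtain ⟨V, hV, rfl⟩ := isOpen_induced_iff.1 hU
      obtain ⟨l, u, hlu, hsub⟩ := mem_nhds_iff_exists_Ioo_subset.1 (hV.mem_nhds hx)
      refine ⟨Subtype.val ⁻¹' Set.Ioo l u, isOpen_Ioo.preimage continuous_subtype_val, hlu,
        fun y hy => hsub hy, ?_⟩
      intro a ha b hb c hac hcb
      exact ⟨lt_of_lt_of_le ha.1 hac, lt_of_le_of_lt hcb hb.2⟩
  · rintro ⟨r, hr, hτ⟩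
    have h1 : @T1Space {x : ℝ // (0 < x ∧ x < 1) ∨ x = 2} (relTopology r) := by
      rw [← hτ]
      infer_instance
    have h2 := t1_isDualOrder hr h1
    rw [← hτ] at h2
    exact NIN.not_dual h2

end Pool.Agent.Lib.MP_d11cf5_gt
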