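import Pool.Agent.Lib.MP_d11cf5_gt.Defs

/-!
# The characterizations
-/

namespace Pool.Agent.Lib.MP_d11cf5_gt

open TopologicalSpace Topology

variable {X : Type*}

section Forward

variable {r : X → X → Prop}

theorem up_chain (h : IsIntervalOrder r) (x y : X) : up r x ⊆ up r y ∨ up r y ⊆ up r x := by
  by_contra hcon
  push Not at hcon
  obtain ⟨h1, h2⟩ := hcon
  rw [Set.not_subset] at h1 h2
  obtain ⟨a, ha, ha'⟩ := h1
  obtain ⟨b, hb, hb'⟩ := h2
  rcases h.cross x a y b ha hb with h3 | h3
  · exact hb' h3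
  · exact ha' h3

theorem down_chain (h : IsIntervalOrder r) (x y : X) :
    down r x ⊆ down r y ∨ down r y ⊆ down r x := by
  by_contra hcon
  push Not at hcon
  obtain ⟨h1, h2⟩ := hcon
  rw [Set.not_subset] at h1 h2
  obtain ⟨a, ha, ha'⟩ := h1
  obtain ⟨b, hb, hb'⟩ := h2
  rcases h.cross a x b y ha hb with h3 | h3
  · exact ha' h3
  · exact hb' h3

/-- The points whose lower set is strictly larger than that of `y`. -/
def vup (r : X → X → Prop) (y : X) : Set X := {z | down r y ⊂ down r z}

theorem vup_subset_up {x y : X} (hxy : r x y) : vup r y ⊆ up r x := by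
  intro w hw
  exact hw.1 hxy

theorem vup_ssubset_up {x y : X} (hxy : r x y) : vup r y ⊂ up r x := by
  refine ⟨vup_subset_up hxy, fun h => ?_⟩
  exact (h hxy).2 (Set.Subset.refl _)

theorem ssubset_of_mem {S T : Set X} (h : S ⊆ T ∨ T ⊆ S) {a : X} (ha : a ∈ T) (ha' : a ∉ S) :
    S ⊂ T := by
  rcases h with h | h
  · exact ⟨h, fun h2 => ha' (h2 ha)⟩
  · exact absurd (h ha) ha'

theorem up_subset_vup (h : IsIntervalOrder r) {x y : X} (hxy : ¬ r x y) :
    up r x ⊆ vup r y := by
  intro w hw
  exact ssubset_of_mem (down_chain h y w) (a := x) hw hxy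

theorem vup_chain (h : IsIntervalOrder r) (x y : X) : vup r x ⊆ vup r y ∨ vup r y ⊆ vup r x := by
  rcases down_chain h x y with h1 | h1
  · right
    intro w hw
    exact lt_of_le_of_lt (b := down r y) h1 hw
  · left
    intro w hw
    exact lt_of_le_of_lt (b := down r x) h1 hw

/-- The chain associated with an interval order. -/
def scaleA (r : X → X → Prop) : Set (Set X) := Set.range (up r) ∪ Set.range (vup r)

/-- The map associated with an interval order. -/
def scalePhi (r : X → X → Prop) (P : Set X) : Set X := {z | P ⊂ up r z}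

theorem scaleA_chain (h : IsIntervalOrder r) : ∀ U ∈ scaleA r, ∀ V ∈ scaleA r,
    U ⊆ V ∨ V ⊆ U := by
  rintro _ (⟨x, rfl⟩ | ⟨x, rfl⟩) _ (⟨y, rfl⟩ | ⟨y, rfl⟩)
  · exact up_chain h x y
  · by_cases hxy : r x y
    · exact Or.inr (vup_subset_up hxy)
    · exact Or.inl (up_subset_vup h hxy)
  · by_cases hxy : r y x
    · exact Or.inl (vup_subset_up hxy)
    · exact Or.inr (up_subset_vup h hxy)
  · exact vup_chain h x y

theorem up_mem (x : X) : up r x ∈ scaleA r := Or.inl ⟨x, rfl⟩

theorem vup_mem (x : X) : vup r x ∈ scaleA r := Or.inr ⟨x, rfl⟩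

theorem scalePhi_vup (h : IsIntervalOrder r) (y : X) : scalePhi r (vup r y) = down r y := by
  ext z
  constructor
  · intro hz
    by_contra hcon
    exact hz.2 (up_subset_vup h hcon)
  · intro hz
    exact vup_ssubset_up hz

theorem missing_scale (h : IsIntervalOrder r) (x : X) (P : Set X) :
    P ∈ missing (scaleA r) (scalePhi r) x ↔ P ∈ scaleA r ∧ x ∉ P ∧ up r x ⊆ P := by
  unfold missing scalePhi
  constructor
  · rintro ⟨h1, h2, h3⟩
    refine ⟨h1, h2, ?_⟩
    rcases scaleA_chain h _ (up_mem x) _ h1 with h4 | h4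
    · exact h4
    · by_contra hcon
      exact h3 ⟨h4, hcon⟩
  · rintro ⟨h1, h2, h3⟩
    exact ⟨h1, h2, fun h4 => h4.2 h3⟩

theorem isLeast_missing (h : IsIntervalOrder r) (x : X) :
    IsLeast (missing (scaleA r) (scalePhi r) x) (up r x) := by
  constructor
  · rw [missing_scale h]
    exact ⟨up_mem x, h.irrefl x, Set.Subset.refl _⟩
  · intro P hP
    rw [missing_scale h] at hP
    exact hP.2.2

theorem isGreatest_missing (h : IsIntervalOrder r) (x : X) :
    IsGreatest (missing (scaleA r) (scalePhi r) x) (vup r x) := by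
  constructor
  · rw [missing_scale h]
    exact ⟨vup_mem x, fun h1 => h1.2 (Set.Subset.refl _), up_subset_vup h (h.irrefl x)⟩
  · intro P hP
    rw [missing_scale h] at hP
    obtain ⟨⟨z, rfl⟩ | ⟨y, rfl⟩, h2, h3⟩ := hP
    · exact up_subset_vup h h2
    · intro w hw
      have h4 : down r x ⊆ down r y := by
        rcases down_chain h x y with h5 | h5
        · exact h5
        · by_contra hcon
          exact h2 ⟨h5, hcon⟩
      exact lt_of_le_of_lt (b := down r y) h4 hw

theorem isOpen_up (x : X) : IsOpen[relTopology r] (up r x) :=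
  TopologicalSpace.isOpen_generateFrom_of_mem (Or.inl (Or.inr ⟨x, rfl⟩))

theorem isOpen_down (x : X) : IsOpen[relTopology r] (down r x) :=
  TopologicalSpace.isOpen_generateFrom_of_mem (Or.inr ⟨x, rfl⟩)

theorem isOpen_vup (h : IsIntervalOrder r) (y : X) : IsOpen[relTopology r] (vup r y) := by
  have : vup r y = ⋃ z : {z // ¬ r z y}, up r z := by
    ext w
    rw [Set.mem_iUnion]
    constructor
    · intro hw
      obtain ⟨z, hz, hz'⟩ := Set.exists_of_ssubset hw
      exact ⟨⟨z, hz'⟩, hz⟩
    · rintro ⟨⟨z, hz⟩, hw⟩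
      exact up_subset_vup h hz hw
  rw [this]
  let _ := relTopology r
  exact isOpen_iUnion fun z => isOpen_up z.1

theorem isOpen_phi_up (h : IsIntervalOrder r) (x : X) :
    IsOpen[relTopology r] (scalePhi r (up r x)) := by
  have : scalePhi r (up r x) = ⋃ w : {w // ¬ r x w}, down r w := by
    ext z
    rw [Set.mem_iUnion]
    constructor
    · intro hz
      obtain ⟨w, hw, hw'⟩ := Set.exists_of_ssubset hz
      exact ⟨⟨w, hw'⟩, hw⟩
    · rintro ⟨⟨w, hw⟩, hz⟩
      exact ssubset_of_mem (up_chain h x z) (a := w) hz hw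
  rw [this]
  let _ := relTopology r
  exact isOpen_iUnion fun z => isOpen_down z.1

theorem isBiScale_of_intervalOrder (h : IsIntervalOrder r) :
    IsBiScale (relTopology r) (scaleA r) (scalePhi r) where
  chain := scaleA_chain h
  anti := by
    intro U hU V hV
    constructor
    · intro hUV z hz
      exact lt_of_le_of_lt (b := V) hUV hz
    · intro hφ
      by_contra hcon
      have hVU : V ⊂ U := by
        rcases scaleA_chain h U hU V hV with h1 | h1
        · exact absurd h1 hcon
        · exact ⟨h1, hcon⟩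
      rcases hU with ⟨x, rfl⟩ | ⟨y, rfl⟩
      · have : x ∈ scalePhi r (up r x) := hφ hVU
        exact (this.2) (Set.Subset.refl _)
      · obtain ⟨w, hw, hw'⟩ := Set.exists_of_ssubset hVU
        obtain ⟨z, hz, hz'⟩ := Set.exists_of_ssubset hw
        have h1 : z ∈ scalePhi r V :=
          ssubset_of_mem (scaleA_chain h V hV _ (up_mem z)) (a := w) hz hw'
        have h2 := hφ h1
        rw [scalePhi_vup h] at h2
        exact hz' h2
  disj := by
    intro U hU
    rw [Set.disjoint_left]
    intro z hz hz'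
    exact h.irrefl z (hz'.1 hz)
  subbasis := by
    apply le_antisymm
    · apply le_generateFrom
      rintro S ((hS | hS) | ⟨U, hU, rfl⟩)
      · rcases hS with rfl | rfl
        · exact @isOpen_empty _ (relTopology r)
        · exact @isOpen_univ _ (relTopology r)
      · rcases hS with ⟨x, rfl⟩ | ⟨y, rfl⟩
        · exact isOpen_up x
        · exact isOpen_vup h y
      · rcases hU with ⟨x, rfl⟩ | ⟨y, rfl⟩
        · exact isOpen_phi_up h x
        · rw [scalePhi_vup h]
          exact isOpen_down y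
    · apply le_generateFrom
      rintro S ((hS | ⟨x, rfl⟩) | ⟨y, rfl⟩)
      · exact TopologicalSpace.isOpen_generateFrom_of_mem (Or.inl (Or.inl hS))
      · exact TopologicalSpace.isOpen_generateFrom_of_mem (Or.inl (Or.inr (up_mem x)))
      · rw [← scalePhi_vup h y]
        exact TopologicalSpace.isOpen_generateFrom_of_mem (Or.inr ⟨_, vup_mem y, rfl⟩)
  least := fun x => ⟨_, isLeast_missing h x⟩
  greatest := fun x => ⟨_, isGreatest_missing h x⟩

theorem semi_condition (h : IsSemiorder r) {x y : X} {Rx Gx Ry Gy : Set X}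
    (hRx : IsLeast (missing (scaleA r) (scalePhi r) x) Rx)
    (hGx : IsGreatest (missing (scaleA r) (scalePhi r) x) Gx)
    (hRy : IsLeast (missing (scaleA r) (scalePhi r) y) Ry)
    (hGy : IsGreatest (missing (scaleA r) (scalePhi r) y) Gy) :
    ¬ (Gy ⊂ Gx ∧ Rx ⊂ Ry) := by
  have hi := h.toIsIntervalOrder
  rw [hRx.unique (isLeast_missing hi x), hGx.unique (isGreatest_missing hi x),
    hRy.unique (isLeast_missing hi y), hGy.unique (isGreatest_missing hi y)]
  rintro ⟨h1, h2⟩
  obtain ⟨s, hs, hs'⟩ := Set.exists_of_ssubset h2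
  have h3 : ¬ down r y ⊆ down r x := by
    intro h4
    apply h1.2
    intro w hw
    exact lt_of_le_of_lt (b := down r x) h4 hw
  rw [Set.not_subset] at h3
  obtain ⟨p, hp, hp'⟩ := h3
  rcases h.semi p y s x hp hs with h5 | h5
  · exact hp' h5
  · exact hs' h5

end Forward

section Backward

variable {τ : TopologicalSpace X} {A : Set (Set X)} {φ : Set X → Set X}

namespace IsBiScale

variable (h : IsBiScale τ A φ)
include h

/-- The least member of the chain that misses `x`. -/
noncomputable def R (x : X) : Set X := (h.least x).choose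

/-- The greatest member of the chain that misses `x`. -/
noncomputable def G (x : X) : Set X := (h.greatest x).choose

theorem isLeast (x : X) : IsLeast (missing A φ x) (h.R x) := (h.least x).choose_spec

theorem isGreatest (x : X) : IsGreatest (missing A φ x) (h.G x) := (h.greatest x).choose_spec

theorem R_mem (x : X) : h.R x ∈ A := (h.isLeast x).1.1

theorem G_mem (x : X) : h.G x ∈ A := (h.isGreatest x).1.1

theorem ssubset_of_mem_left {y : X} {P Q : Set X} (hP : P ∈ A) (hy : y ∈ P)
    (hQ : Q ∈ missing A φ y) : Q ⊂ P :=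
  ssubset_of_mem (h.chain Q hQ.1 P hP) hy hQ.2.1

theorem ssubset_of_mem_phi {y : X} {P Q : Set X} (hP : P ∈ A) (hy : y ∈ φ P)
    (hQ : Q ∈ missing A φ y) : P ⊂ Q := by
  have h1 : ¬ Q ⊆ P := fun h2 => hQ.2.2 ((h.anti Q hQ.1 P hP).1 h2 hy)
  exact ⟨(h.chain P hP Q hQ.1).resolve_right h1, h1⟩

/-- The relation defined by a bi-scale. -/
def rel (x y : X) : Prop := y ∈ h.R x

theorem rel_iff (x y : X) : h.rel x y ↔ h.G y ⊂ h.R x := by
  constructor
  · intro hxy
    exact h.ssubset_of_mem_left (h.R_mem x) hxy (h.isGreatest y).1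
  · intro hxy
    by_contra hcon
    have h1 : y ∈ φ (h.R x) := by
      by_contra hcon2
      exact hxy.2 ((h.isGreatest y).2 ⟨h.R_mem x, hcon, hcon2⟩)
    exact (h.isGreatest y).1.2.2 ((h.anti _ (h.G_mem y) _ (h.R_mem x)).1 hxy.1 h1)

theorem rel_iff_phi (x y : X) : h.rel x y ↔ x ∈ φ (h.G y) := by
  rw [h.rel_iff]
  constructor
  · intro hxy
    by_contra hcon
    have h1 : x ∈ h.G y := by
      by_contra hcon2
      exact hxy.2 ((h.isLeast x).2 ⟨h.G_mem y, hcon2, hcon⟩)
    exact (h.isLeast x).1.2.1 (hxy.1 h1)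
  · intro hx
    exact h.ssubset_of_mem_phi (h.G_mem y) hx (h.isLeast x).1

theorem up_rel (x : X) : up h.rel x = h.R x := rfl

theorem down_rel (y : X) : down h.rel y = φ (h.G y) := by
  ext x
  exact h.rel_iff_phi x y

theorem isIntervalOrder : IsIntervalOrder h.rel where
  irrefl x := (h.isLeast x).1.2.1
  cross x y z w hxy hzw := by
    rcases h.chain _ (h.R_mem x) _ (h.R_mem z) with h1 | h1
    · exact Or.inr (h1 hxy)
    · exact Or.inl (h1 hzw)

theorem mem_eq (P : Set X) (hP : P ∈ A) : P = ⋃ x : {x // h.R x ⊆ P}, up h.rel x := by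
  ext y
  rw [Set.mem_iUnion]
  constructor
  · intro hy
    have h1 : h.G y ⊂ P := h.ssubset_of_mem_left hP hy (h.isGreatest y).1
    have h2 : ¬ φ (h.G y) ⊆ φ P := fun h3 => h1.2 ((h.anti _ hP _ (h.G_mem y)).2 h3)
    rw [Set.not_subset] at h2
    obtain ⟨x, hx, hx'⟩ := h2
    refine ⟨⟨x, ?_⟩, (h.rel_iff_phi x y).2 hx⟩
    by_cases hxP : x ∈ P
    · exact (h.ssubset_of_mem_left hP hxP (h.isLeast x).1).1
    · exact (h.isLeast x).2 ⟨hP, hxP, hx'⟩
  · rintro ⟨⟨x, hx⟩, hy⟩
    exact hx hy

theorem phi_eq (P : Set X) (hP : P ∈ A) : φ P = ⋃ y : {y // P ⊆ h.G y}, down h.rel y := by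
  ext x
  rw [Set.mem_iUnion]
  constructor
  · intro hx
    have h1 : P ⊂ h.R x := h.ssubset_of_mem_phi hP hx (h.isLeast x).1
    obtain ⟨y, hy, hy'⟩ := Set.exists_of_ssubset h1
    refine ⟨⟨y, ?_⟩, hy⟩
    by_cases hyP : y ∈ φ P
    · exact (h.ssubset_of_mem_phi hP hyP (h.isGreatest y).1).1
    · exact (h.isGreatest y).2 ⟨hP, hy', hyP⟩
  · rintro ⟨⟨y, hy⟩, hx⟩
    have h1 : x ∈ φ (h.G y) := (h.rel_iff_phi x y).1 hx
    exact (h.anti _ hP _ (h.G_mem y)).1 hy h1

theorem topology_eq : τ = relTopology h.rel := by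
  refine h.subbasis.trans ?_
  apply le_antisymm
  · apply le_generateFrom
    rintro S ((hS | ⟨x, rfl⟩) | ⟨y, rfl⟩)
    · exact TopologicalSpace.isOpen_generateFrom_of_mem (Or.inl (Or.inl hS))
    · exact TopologicalSpace.isOpen_generateFrom_of_mem (Or.inl (Or.inr (h.R_mem x)))
    · rw [h.down_rel y]
      exact TopologicalSpace.isOpen_generateFrom_of_mem (Or.inr ⟨_, h.G_mem y, rfl⟩)
  · apply le_generateFrom
    rintro S ((hS | hS) | ⟨U, hU, rfl⟩)
    · exact TopologicalSpace.isOpen_generateFrom_of_mem (Or.inl (Or.inl hS))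
    · rw [h.mem_eq S hS]
      let _ := relTopology h.rel
      exact isOpen_iUnion fun x => isOpen_up x.1
    · rw [h.phi_eq U hU]
      let _ := relTopology h.rel
      exact isOpen_iUnion fun x => isOpen_down x.1

theorem isSemiorder (hs : ∀ x y, ∀ Rx Gx Ry Gy : Set X, IsLeast (missing A φ x) Rx →
    IsGreatest (missing A φ x) Gx → IsLeast (missing A φ y) Ry →
    IsGreatest (missing A φ y) Gy → ¬ (Gy ⊂ Gx ∧ Rx ⊂ Ry)) : IsSemiorder h.rel where
  toIsIntervalOrder := h.isIntervalOrder
  semi p q s w hpq hqs := by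
    by_contra hcon
    push Not at hcon
    obtain ⟨h1, h2⟩ := hcon
    rw [h.rel_iff] at hpq hqs h1 h2
    apply hs w q _ _ _ _ (h.isLeast w) (h.isGreatest w) (h.isLeast q) (h.isGreatest q)
    constructor
    · have h3 : h.R p ⊆ h.G w := by
        rcases h.chain _ (h.R_mem p) _ (h.G_mem w) with h4 | h4
        · exact h4
        · by_contra hcon
          exact h1 ⟨h4, hcon⟩
      exact lt_of_lt_of_le (b := h.R p) hpq h3
    · have h3 : h.R w ⊆ h.G s := by
        rcases h.chain _ (h.R_mem w) _ (h.G_mem s) with h4 | h4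
        · exact h4
        · by_contra hcon
          exact h2 ⟨h4, hcon⟩
      exact lt_of_le_of_lt (b := h.G s) h3 hqs

end IsBiScale

end Backward

end Pool.Agent.Lib.MP_d11cf5_gt
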