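import Pool.Agent.Lib.MP_d11cf5_gt.Orderable

/-!
# Open initial and final segments of a totally ordered space: definitions
-/

set_option autoImplicit false

namespace Pool.Agent.Lib.MP_d11cf5_gt

open Topology

variable {X : Type*}

/-- The `τ`-open initial segments of the totally ordered set `(X, s)`; the whole space counts only
if `(X, s)` has no greatest element. -/
def openInitial (τ : TopologicalSpace X) (s : X → X → Prop) : Set (Set X) :=
  {A | IsOpen[τ] A ∧ (∀ a ∈ A, ∀ b, s b a → b ∈ A) ∧
    (A = Set.univ → ¬ ∃ m, ∀ x, s x m)}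

/-- The `τ`-open final segments of the totally ordered set `(X, s)`; the whole space counts only
if `(X, s)` has no least element. -/
def openFinal (τ : TopologicalSpace X) (s : X → X → Prop) : Set (Set X) :=
  {B | IsOpen[τ] B ∧ (∀ a ∈ B, ∀ b, s a b → b ∈ B) ∧
    (B = Set.univ → ¬ ∃ m, ∀ x, s m x)}

/-- `s` is a total order whose open rays are `τ`-open, the `τ`-open initial and final segments form
a subbasis of `τ`, and there is an order reversing bijection `φ` from the set of the open initial
segments onto the set of the open final segments with `φ (←, x) ⊆ (x, →)` for every `x`. -/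
structure IsDualOrder (τ : TopologicalSpace X) (s : X → X → Prop) : Prop where
  total : ∀ x y, s x y ∨ s y x
  trans : ∀ x y z, s x y → s y z → s x z
  antisymm : ∀ x y, s x y → s y x → x = y
  rays : ∀ x, IsOpen[τ] {y | strict s x y} ∧ IsOpen[τ] {y | strict s y x}
  subbasis : τ = TopologicalSpace.generateFrom (openInitial τ s ∪ openFinal τ s)
  dual : ∃ φ : Set X → Set X, Set.BijOn φ (openInitial τ s) (openFinal τ s) ∧
    (∀ A ∈ openInitial τ s, ∀ B ∈ openInitial τ s, A ⊆ B → φ B ⊆ φ A) ∧
    ∀ x, φ {y | strict s y x} ⊆ {y | strict s x y}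

end Pool.Agent.Lib.MP_d11cf5_gt
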