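import Pool.Agent.Lib.MP_d11cf5_gt.Defs

/-!
# Topologies induced by interval orders and semiorders: three pieces of a segment

A semiorder `tri` on `[0, 3]` whose topology is the disjoint union of `[0, 1]`, `(1, 2)` and
`[2, 3]`. This topology is `T₁`, and it is not induced by a total preorder.
-/

set_option autoImplicit false

namespace Pool.Agent.Lib.MP_d11cf5_gt

open TopologicalSpace Topology

/-- An increasing bijection of `[0, 3]` with `step 1 = 2` and `step x > x` inside. -/
noncomputable def step (x : ℝ) : ℝ := min (2 * x) ((x + 3) / 2)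

/-- The relation. -/
def tri (x y : Set.Icc (0 : ℝ) 3) : Prop := step x < y ∨ ((x : ℝ) = 1 ∧ (y : ℝ) = 2)

namespace TP

theorem step_lo {x : ℝ} (h : x ≤ 1) : step x = 2 * x := by
  unfold step
  rw [min_eq_left]
  linarith

theorem step_hi {x : ℝ} (h : 1 ≤ x) : step x = (x + 3) / 2 := by
  unfold step
  rw [min_eq_right]
  linarith

theorem step_one : step 1 = 2 := by
  rw [step_lo le_rfl]
  norm_num

theorem step_mono {x y : ℝ} (h : x < y) : step x < step y := by
  unfold step
  apply lt_min
  · exact lt_of_le_of_lt (min_le_left _ _) (by linarith)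
  · exact lt_of_le_of_lt (min_le_right _ _) (by linarith)

theorem step_lt_iff {x y : ℝ} : step x < step y ↔ x < y := by
  constructor
  · intro h
    by_contra hc
    rcases (not_lt.1 hc).lt_or_eq with h1 | h1
    · exact absurd (step_mono h1) h.le.not_gt
    · rw [h1] at h
      exact lt_irrefl _ h
  · exact step_mono

theorem le_step {x : ℝ} (h0 : 0 ≤ x) (h3 : x ≤ 3) : x ≤ step x := by
  unfold step
  apply le_min <;> linarith

theorem step_nonneg {x : ℝ} (h0 : 0 ≤ x) : 0 ≤ step x := by
  unfold step
  apply le_min <;> linarith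

theorem step_le {x : ℝ} (h3 : x ≤ 3) : step x ≤ 3 := by
  unfold step
  exact (min_le_right _ _).trans (by linarith)

theorem exists_step {c : ℝ} (h0 : 0 ≤ c) (h3 : c ≤ 3) : ∃ x, 0 ≤ x ∧ x ≤ 3 ∧ step x = c := by
  rcases le_total c 2 with h | h
  · refine ⟨c / 2, by linarith, by linarith, ?_⟩
    rw [step_lo (by linarith)]
    ring
  · refine ⟨2 * c - 3, by linarith, by linarith, ?_⟩
    rw [step_hi (by linarith)]
    ring

theorem continuous_step : Continuous step := by
  unfold step
  fun_prop

theorem tri_iff (x y : Set.Icc (0 : ℝ) 3) :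
    tri x y ↔ step x < y ∨ (step x = y ∧ (x : ℝ) = 1) := by
  unfold tri
  constructor
  · rintro (h | ⟨h1, h2⟩)
    · exact Or.inl h
    · right
      rw [h1, h2, step_one]
      exact ⟨rfl, rfl⟩
  · rintro (h | ⟨h1, h2⟩)
    · exact Or.inl h
    · right
      rw [h2, step_one] at h1
      exact ⟨h2, h1.symm⟩

theorem le_gen {X : Type*} (T : TopologicalSpace X) (r : X → X → Prop)
    (h1 : ∀ x, IsOpen[T] (up r x)) (h2 : ∀ y, IsOpen[T] (down r y)) : T ≤ relTopology r := by
  apply le_generateFrom
  rintro S (((rfl | hS) | ⟨x, rfl⟩) | ⟨y, rfl⟩)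
  · exact @isOpen_empty _ T
  · rw [Set.mem_singleton_iff.1 hS]
    exact @isOpen_univ _ T
  · exact h1 x
  · exact h2 y

/-- the linear order given by a relation -/
@[reducible] noncomputable def lin {X : Type*} (s : X → X → Prop) (htot : ∀ x y, s x y ∨ s y x)
    (htrans : ∀ x y z, s x y → s y z → s x z) (hanti : ∀ x y, s x y → s y x → x = y) :
    LinearOrder X :=
  { le := s
    lt := fun x y => s x y ∧ ¬ s y x
    le_refl := fun x => (htot x x).elim id id
    le_trans := htrans
    lt_iff_le_not_ge := fun _ _ => Iff.rfl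
    le_antisymm := hanti
    le_total := htot
    toDecidableLE := Classical.decRel _ }

theorem lin_orderTopology {X : Type*} (s : X → X → Prop) (htot : ∀ x y, s x y ∨ s y x)
    (htrans : ∀ x y z, s x y → s y z → s x z) (hanti : ∀ x y, s x y → s y x → x = y) :
    @OrderTopology _ (relTopology (fun x y => s x y ∧ ¬ s y x))
      (lin s htot htrans hanti).toPreorder := by
  refine @OrderTopology.mk _ (relTopology (fun x y => s x y ∧ ¬ s y x))
    (lin s htot htrans hanti).toPreorder ?_
  apply le_antisymm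
  · apply le_generateFrom
    rintro S ⟨a, rfl | rfl⟩
    · exact isOpen_generateFrom_of_mem (Or.inl (Or.inr ⟨a, rfl⟩))
    · exact isOpen_generateFrom_of_mem (Or.inr ⟨a, rfl⟩)
  · apply le_gen
    · intro x
      exact isOpen_generateFrom_of_mem ⟨x, Or.inl rfl⟩
    · intro y
      exact isOpen_generateFrom_of_mem ⟨y, Or.inr rfl⟩

end TP

open TP

theorem tri_semiorder : IsSemiorder tri where
  irrefl := by
    rintro x (h | h)
    · exact absurd (le_step x.2.1 x.2.2) (not_le.2 h)
    · linarith [h.1, h.2]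
  cross := by
    intro x y z w hxy hzw
    rw [tri_iff] at hxy hzw
    rw [tri_iff, tri_iff]
    by_contra hc
    rw [not_or, not_or, not_or] at hc
    obtain ⟨⟨h1, h2⟩, h3, h4⟩ := hc
    rcases hxy with h5 | ⟨h5, h6⟩
    · rcases hzw with h7 | ⟨h7, h8⟩ <;> linarith
    · rcases hzw with h7 | ⟨h7, h8⟩
      · linarith
      · have h9 : step x = step z := by rw [h6, h8]
        exact h4 ⟨by rw [← h9, h5], h8⟩
  semi := by
    intro x y z w hxy hyz
    rw [tri_iff] at hxy hyz
    rw [tri_iff, tri_iff]
    by_contra hc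
    rw [not_or, not_or, not_or] at hc
    obtain ⟨⟨h1, h2⟩, h3, h4⟩ := hc
    have h5 : step y ≤ z := by
      rcases hyz with h | h
      · exact h.le
      · exact h.1.le
    have h6 : (w : ℝ) < y := by
      rcases hxy with h | ⟨h, h'⟩
      · linarith
      · rcases (not_lt.1 h1).lt_or_eq with h7 | h7
        · linarith
        · exact absurd ⟨h7.symm, h'⟩ h2
    have h7 := step_mono h6
    linarith

/-- A set containing, with every point `y`, some `up x` or `down z` through `y`, is open. -/
theorem TP.isOpen_of_up {S : Set (Set.Icc (0 : ℝ) 3)}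
    (h : ∀ y ∈ S, (∃ x, tri x y ∧ up tri x ⊆ S) ∨ ∃ z, tri y z ∧ down tri z ⊆ S) :
    IsOpen[relTopology tri] S := by
  let _ := relTopology tri
  rw [isOpen_iff_forall_mem_open]
  intro y hy
  rcases h y hy with ⟨x, hx, hS⟩ | ⟨z, hz, hS⟩
  · exact ⟨up tri x, hS, isOpen_generateFrom_of_mem (Or.inl (Or.inr ⟨x, rfl⟩)), hx⟩
  · exact ⟨down tri z, hS, isOpen_generateFrom_of_mem (Or.inr ⟨z, rfl⟩), hz⟩

theorem TP.le_usual : relTopology tri ≤ (inferInstance : TopologicalSpace (Set.Icc (0 : ℝ) 3)) := by
  rw [OrderTopology.topology_eq_generate_intervals (α := Set.Icc (0 : ℝ) 3)]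
  apply le_generateFrom
  rintro S ⟨a, rfl | rfl⟩
  · apply isOpen_of_up
    intro y hy
    left
    have hay : (a : ℝ) < y := hy
    have ha0 := a.2.1
    have hy3 := y.2.2
    obtain ⟨c, hac, hcy, hc2⟩ : ∃ c : ℝ, a < c ∧ c < y ∧ c ≠ 2 := by
      by_cases h : (2 * (a : ℝ) + y) / 3 = 2
      · exact ⟨((a : ℝ) + 2 * y) / 3, by linarith, by linarith, by
          intro h'
          linarith⟩
      · exact ⟨_, by linarith, by linarith, h⟩
    obtain ⟨x, hx0, hx3, hxc⟩ := exists_step (c := c) (by linarith) (by linarith)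
    have hx1 : x ≠ 1 := by
      rintro rfl
      rw [step_one] at hxc
      exact hc2 hxc.symm
    refine ⟨⟨x, hx0, hx3⟩, Or.inl (by simpa [hxc] using hcy), ?_⟩
    rintro z (hz | hz)
    · have hz' : c < z := by simpa [hxc] using hz
      show (a : ℝ) < z
      linarith
    · exact absurd hz.1 hx1
  · apply isOpen_of_up
    intro y hy
    right
    have hya : (y : ℝ) < a := hy
    have hs := step_mono hya
    have hy0 := step_nonneg y.2.1
    have ha3 := step_le a.2.2
    obtain ⟨c, hyc, hca, hc2⟩ : ∃ c : ℝ, step y < c ∧ c < step a ∧ c ≠ 2 := by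
      by_cases h : (2 * step y + step a) / 3 = 2
      · exact ⟨(step y + 2 * step a) / 3, by linarith, by linarith, by
          intro h'
          linarith⟩
      · exact ⟨_, by linarith, by linarith, h⟩
    refine ⟨⟨c, by linarith, by linarith⟩, Or.inl hyc, ?_⟩
    rintro z (hz | hz)
    · have hz' : step z < c := hz
      show (z : ℝ) < a
      exact step_lt_iff.1 (hz'.trans hca)
    · exact absurd hz.2 hc2

/-- The topology of `tri` is that of the disjoint union of `[0, 1]`, `(1, 2)` and `[2, 3]`. -/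
theorem tri_topology : relTopology tri =
    (inferInstance : TopologicalSpace (Set.Icc (0 : ℝ) 3)) ⊓
      generateFrom {{x : Set.Icc (0 : ℝ) 3 | (x : ℝ) ≤ 1}, {x : Set.Icc (0 : ℝ) 3 | 2 ≤ (x : ℝ)}} := by
  apply le_antisymm
  · apply le_inf le_usual
    apply le_generateFrom
    rintro S (rfl | hS)
    · apply isOpen_of_up
      intro y hy
      right
      have hy1 : (y : ℝ) ≤ 1 := hy
      refine ⟨⟨2, by norm_num, by norm_num⟩, ?_, ?_⟩
      · rcases hy1.lt_or_eq with h | h
        · left
          have := step_mono h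
          rw [step_one] at this
          exact this
        · exact Or.inr ⟨h, rfl⟩
      · rintro z (hz | hz)
        · have hz' : step z < step 1 := by
            rw [step_one]
            exact hz
          exact (step_lt_iff.1 hz').le
        · exact hz.1.le
    · rw [Set.mem_singleton_iff.1 hS]
      apply isOpen_of_up
      intro y hy
      left
      have hy2 : 2 ≤ (y : ℝ) := hy
      refine ⟨⟨1, by norm_num, by norm_num⟩, ?_, ?_⟩
      · rcases hy2.lt_or_eq with h | h
        · left
          show step 1 < y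
          rw [step_one]
          exact h
        · exact Or.inr ⟨rfl, h.symm⟩
      · rintro z (hz | hz)
        · have hz' : step 1 < z := hz
          rw [step_one] at hz'
          exact hz'.le
        · exact hz.2.symm.le
  · apply le_gen
    · intro x
      by_cases hx : (x : ℝ) = 1
      · have : up tri x = {x : Set.Icc (0 : ℝ) 3 | 2 ≤ (x : ℝ)} := by
          ext z
          constructor
          · rintro (h | h)
            · rw [hx, step_one] at h
              exact h.le
            · exact h.2.symm.le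
          · intro h
            rcases (show 2 ≤ (z : ℝ) from h).lt_or_eq with h | h
            · left
              rw [hx, step_one]
              exact h
            · exact Or.inr ⟨hx, h.symm⟩
        rw [this]
        exact (inf_le_right : _ ⊓ generateFrom _ ≤ _) _
          (isOpen_generateFrom_of_mem (Or.inr rfl))
      · have : up tri x = (fun z : Set.Icc (0 : ℝ) 3 => (z : ℝ)) ⁻¹' Set.Ioi (step x) := by
          ext z
          constructor
          · rintro (h | h)
            · exact h
            · exact absurd h.1 hx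
          · intro h
            exact Or.inl h
        rw [this]
        exact (inf_le_left : (inferInstance : TopologicalSpace (Set.Icc (0 : ℝ) 3)) ⊓ _ ≤ _) _
          (isOpen_Ioi.preimage continuous_subtype_val)
    · intro y
      by_cases hy : (y : ℝ) = 2
      · have : down tri y = {x : Set.Icc (0 : ℝ) 3 | (x : ℝ) ≤ 1} := by
          ext z
          constructor
          · rintro (h | h)
            · rw [hy, ← step_one] at h
              exact (step_lt_iff.1 h).le
            · exact h.1.le
          · intro h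
            rcases (show (z : ℝ) ≤ 1 from h).lt_or_eq with h | h
            · left
              rw [hy, ← step_one]
              exact step_mono h
            · exact Or.inr ⟨h, hy⟩
        rw [this]
        exact (inf_le_right : _ ⊓ generateFrom _ ≤ _) _
          (isOpen_generateFrom_of_mem (Or.inl rfl))
      · have : down tri y = (fun z : Set.Icc (0 : ℝ) 3 => step (z : ℝ)) ⁻¹' Set.Iio (y : ℝ) := by
          ext z
          constructor
          · rintro (h | h)
            · exact h
            · exact absurd h.2 hy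
          · intro h
            exact Or.inl h
        rw [this]
        exact (inf_le_left : (inferInstance : TopologicalSpace (Set.Icc (0 : ℝ) 3)) ⊓ _ ≤ _) _
          (isOpen_Iio.preimage (continuous_step.comp continuous_subtype_val))

theorem tri_t1 : @T1Space _ (relTopology tri) :=
  t1Space_antitone TP.le_usual inferInstance

/-! ### no total preorder -/

/-- In a linear order: a clopen nonempty set without greatest element whose complement is compact
has no point above it. -/
theorem TP.key {Y : Type*} [LinearOrder Y] [TopologicalSpace Y] [OrderTopology Y] (M : Set Y)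
    (hMc : IsClosed M) (hne : M.Nonempty) (hcomp : IsCompact Mᶜ) (hno : ∀ m ∈ M, ∃ y ∈ M, m < y) (p : Y) (hp : ∀ y ∈ M, y < p) :
    False := by
  let U : Set Y := Mᶜ ∩ ⋂ y ∈ M, Set.Ici y
  have hU : IsCompact U :=
    hcomp.inter_right (isClosed_biInter fun y _ => isClosed_Ici)
  have hmemU : ∀ x, (∀ y ∈ M, y < x) → x ∈ U := by
    intro x hx
    refine ⟨fun hxM => lt_irrefl _ (hx x hxM), ?_⟩
    simp only [Set.mem_iInter, Set.mem_Ici]
    exact fun y hy => (hx y hy).le
  obtain ⟨e, heU, hemin⟩ := hU.exists_isLeast ⟨p, hmemU p hp⟩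
  have heM : ∀ y ∈ M, y < e := by
    intro y hy
    have h1 : y ≤ e := by
      have := heU.2
      simp only [Set.mem_iInter, Set.mem_Ici] at this
      exact this y hy
    refine lt_of_le_of_ne h1 ?_
    rintro rfl
    exact heU.1 hy
  obtain ⟨y0, hy0⟩ := hne
  have hnhds : Mᶜ ∈ 𝓝 e := hMc.isOpen_compl.mem_nhds heU.1
  obtain ⟨l, hle, hl⟩ := exists_Ioc_subset_of_mem_nhds hnhds ⟨y0, heM y0 hy0⟩
  have hl2 : ¬ ∀ y ∈ M, y < l := fun h => absurd (hemin (hmemU l h)) (not_le.2 hle)
  push Not at hl2
  obtain ⟨y1, hy1, hly1⟩ := hl2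
  obtain ⟨y2, hy2, hlt⟩ := hno y1 hy1
  exact hl ⟨lt_of_le_of_lt hly1 hlt, (heM y2 hy2).le⟩ hy2

/-- The clamp in a linear order: no point of the middle piece is the least one. -/
theorem TP.no_least {Y : Type*} [LinearOrder Y] [TopologicalSpace Y] [OrderTopology Y]
    (f : Y → ℝ) (hf : Continuous f)
    (hsurj : ∀ t : ℝ, 1 < t → t < 2 → ∃ y, f y = t) (hinj : Function.Injective f)
    (hconn : IsPreconnected {y | 1 < f y ∧ f y < 2}) (m : Y) (hm : 1 < f m ∧ f m < 2) :
    ∃ y, (1 < f y ∧ f y < 2) ∧ y < m := by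
  by_contra hcon
  push Not at hcon
  obtain ⟨a, ha⟩ := hsurj ((1 + f m) / 2) (by linarith [hm.1]) (by linarith [hm.2])
  obtain ⟨b, hb⟩ := hsurj ((f m + 2) / 2) (by linarith [hm.1]) (by linarith [hm.2])
  have ham : m < a := by
    refine lt_of_le_of_ne (hcon a ⟨by linarith [hm.1], by linarith [hm.2]⟩) ?_
    rintro rfl
    linarith [hm.1]
  have hbm : m < b := by
    refine lt_of_le_of_ne (hcon b ⟨by linarith [hm.1], by linarith [hm.2]⟩) ?_
    rintro rfl
    linarith [hm.2]
  -- the clamp between `min a b` and `max a b`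
  let c : Y → Y := fun t => max (min a b) (min t (max a b))
  have hc : Continuous c := by fun_prop
  have hca : c a = a := by
    simp only [c]
    rcases le_total a b with h | h <;> simp [h]
  have hcb : c b = b := by
    simp only [c]
    rcases le_total a b with h | h <;> simp [h]
  have hcm : ∀ t, c t ≠ m := by
    intro t h
    have h1 : m < min a b := lt_min ham hbm
    have h2 : min a b ≤ c t := le_max_left _ _
    rw [h] at h2
    exact absurd h2 (not_le.2 h1)
  have hpre : IsPreconnected (f '' (c '' {y | 1 < f y ∧ f y < 2})) :=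
    (hconn.image c hc.continuousOn).image f hf.continuousOn
  have hord := hpre.ordConnected
  have hA : f a ∈ f '' (c '' {y | 1 < f y ∧ f y < 2}) :=
    ⟨a, ⟨a, ⟨by linarith [hm.1], by linarith [hm.2]⟩, hca⟩, rfl⟩
  have hB : f b ∈ f '' (c '' {y | 1 < f y ∧ f y < 2}) :=
    ⟨b, ⟨b, ⟨by linarith [hm.1], by linarith [hm.2]⟩, hcb⟩, rfl⟩
  have hM : f m ∈ f '' (c '' {y | 1 < f y ∧ f y < 2}) :=
    hord.out hA hB ⟨by linarith [hm.1], by linarith [hm.2]⟩
  obtain ⟨x, ⟨t, -, rfl⟩, hx⟩ := hM
  exact hcm t (hinj hx)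

/-- No linear order induces the topology. -/
theorem TP.no_order {Y : Type*} [LinearOrder Y] [TopologicalSpace Y] [OrderTopology Y]
    (f : Y → ℝ) (hf : Continuous f) (hsurj : ∀ t : ℝ, 0 ≤ t → t ≤ 3 → ∃ y, f y = t)
    (hinj : Function.Injective f) (h1 : IsOpen {y | f y ≤ 1}) (h2 : IsOpen {y | 2 ≤ f y})
    (hconn : IsPreconnected {y | 1 < f y ∧ f y < 2})
    (hcomp : IsCompact {y | 1 < f y ∧ f y < 2}ᶜ) : False := by
  have hMc : IsClosed {y | 1 < f y ∧ f y < 2} := by
    rw [← isOpen_compl_iff]
    have : {y | 1 < f y ∧ f y < 2}ᶜ = {y | f y ≤ 1} ∪ {y | 2 ≤ f y} := by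
      ext y
      simp only [Set.mem_compl_iff, Set.mem_ofPred_eq, Set.mem_union, not_and_or, not_lt]
    rw [this]
    exact h1.union h2
  have hsurj' : ∀ t : ℝ, 1 < t → t < 2 → ∃ y, f y = t :=
    fun t ht1 ht2 => hsurj t (by linarith) (by linarith)
  have hne : {y | 1 < f y ∧ f y < 2}.Nonempty := by
    obtain ⟨y, hy⟩ := hsurj (3 / 2) (by norm_num) (by norm_num)
    exact ⟨y, by rw [Set.mem_ofPred_eq, hy]; norm_num⟩
  have hconv := hconn.ordConnected
  obtain ⟨p, hp⟩ := hsurj 0 le_rfl (by norm_num)
  have hpM : p ∉ {y | 1 < f y ∧ f y < 2} := by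
    rintro ⟨h, -⟩
    rw [hp] at h
    linarith
  obtain ⟨y0, hy0⟩ := hne
  have hside : (∀ y ∈ {y | 1 < f y ∧ f y < 2}, y < p) ∨
      (∀ y ∈ {y | 1 < f y ∧ f y < 2}, p < y) := by
    by_contra hcon
    rw [not_or] at hcon
    obtain ⟨ha, hb⟩ := hcon
    push Not at ha hb
    obtain ⟨a, ha, hpa⟩ := ha
    obtain ⟨b, hb, hbp⟩ := hb
    exact hpM (hconv.out hb ha ⟨hbp, hpa⟩)
  rcases hside with h | h
  · refine TP.key _ hMc ⟨y0, hy0⟩ hcomp ?_ p h
    intro m hm
    obtain ⟨y, hy, hym⟩ := TP.no_least (Y := Yᵒᵈ) f hf hsurj' hinj hconn m hm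
    exact ⟨y, hy, hym⟩
  · refine TP.key (Y := Yᵒᵈ) _ hMc ⟨y0, hy0⟩ hcomp ?_ p h
    intro m hm
    obtain ⟨y, hy, hym⟩ := TP.no_least f hf hsurj' hinj hconn m hm
    exact ⟨y, hy, hym⟩

/-- The topology of `tri` is not induced by the strict part of a total preorder. -/
theorem tri_not_preorderable : ¬ ∃ s : Set.Icc (0 : ℝ) 3 → Set.Icc (0 : ℝ) 3 → Prop,
    (∀ x y, s x y ∨ s y x) ∧ (∀ x y z, s x y → s y z → s x z) ∧
      relTopology tri = relTopology (fun x y => s x y ∧ ¬ s y x) := by
  classical
  rintro ⟨s, htot, htrans, htop⟩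
  -- `s` is antisymmetric
  have hanti : ∀ x y, s x y → s y x → x = y := by
    intro x y hxy hyx
    by_contra hne
    have h1 := tri_t1
    rw [htop] at h1
    have hop : IsOpen[relTopology (fun x y => s x y ∧ ¬ s y x)] ({y}ᶜ) := by
      let _ := relTopology (fun x y => s x y ∧ ¬ s y x)
      exact isOpen_compl_singleton
    have hall : ∀ S : Set (Set.Icc (0 : ℝ) 3),
        IsOpen[relTopology (fun x y => s x y ∧ ¬ s y x)] S → (x ∈ S ↔ y ∈ S) := by
      intro S hS
      induction hS with
      | basic S hS =>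
        rcases hS with ((rfl | hS) | ⟨z, rfl⟩) | ⟨z, rfl⟩
        · exact Iff.rfl
        · rw [Set.mem_singleton_iff.1 hS]
          exact Iff.rfl
        · constructor
          · rintro ⟨ha, hb⟩
            exact ⟨htrans _ _ _ ha hxy, fun h => hb (htrans _ _ _ hxy h)⟩
          · rintro ⟨ha, hb⟩
            exact ⟨htrans _ _ _ ha hyx, fun h => hb (htrans _ _ _ hyx h)⟩
        · constructor
          · rintro ⟨ha, hb⟩
            exact ⟨htrans _ _ _ hyx ha, fun h => hb (htrans _ _ _ h hyx)⟩
          · rintro ⟨ha, hb⟩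
            exact ⟨htrans _ _ _ hxy ha, fun h => hb (htrans _ _ _ h hxy)⟩
      | univ => exact Iff.rfl
      | inter S T _ _ ihS ihT => exact and_congr ihS ihT
      | sUnion F _ ih =>
        constructor
        · rintro ⟨S, hS, h⟩
          exact ⟨S, hS, (ih S hS).1 h⟩
        · rintro ⟨S, hS, h⟩
          exact ⟨S, hS, (ih S hS).2 h⟩
    exact (hall _ hop).1 hne rfl
  have hO : @OrderTopology _ (relTopology tri) (lin s htot htrans hanti).toPreorder := by
    rw [htop]
    exact lin_orderTopology s htot htrans hanti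
  have hf : @Continuous _ _ (relTopology tri) _ (fun x : Set.Icc (0 : ℝ) 3 => (x : ℝ)) :=
    continuous_le_dom TP.le_usual continuous_subtype_val
  -- open pieces
  have h1 : IsOpen[relTopology tri] {x : Set.Icc (0 : ℝ) 3 | (x : ℝ) ≤ 1} := by
    rw [tri_topology]
    exact (inf_le_right : _ ⊓ generateFrom _ ≤ _) _ (isOpen_generateFrom_of_mem (Or.inl rfl))
  have h2 : IsOpen[relTopology tri] {x : Set.Icc (0 : ℝ) 3 | 2 ≤ (x : ℝ)} := by
    rw [tri_topology]
    exact (inf_le_right : _ ⊓ generateFrom _ ≤ _) _ (isOpen_generateFrom_of_mem (Or.inr rfl))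
  -- continuous maps into the space
  have hcont : ∀ (T : Type) [TopologicalSpace T] (g : T → Set.Icc (0 : ℝ) 3), Continuous g →
      (IsOpen (g ⁻¹' {x : Set.Icc (0 : ℝ) 3 | (x : ℝ) ≤ 1})) →
      (IsOpen (g ⁻¹' {x : Set.Icc (0 : ℝ) 3 | 2 ≤ (x : ℝ)})) →
      @Continuous _ _ _ (relTopology tri) g := by
    intro T _ g hg ha hb
    rw [tri_topology]
    refine continuous_inf_rng.2 ⟨hg, continuous_generateFrom_iff.2 ?_⟩
    rintro S (rfl | hS)
    · exact ha
    · rw [Set.mem_singleton_iff.1 hS]
      exact hb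
  have hconn : @IsPreconnected _ (relTopology tri)
      {x : Set.Icc (0 : ℝ) 3 | 1 < (x : ℝ) ∧ (x : ℝ) < 2} := by
    have hT : PreconnectedSpace (Set.Ioo (1 : ℝ) 2) :=
      Subtype.preconnectedSpace isPreconnected_Ioo
    let g : Set.Ioo (1 : ℝ) 2 → Set.Icc (0 : ℝ) 3 := fun t =>
      ⟨t, by linarith [t.2.1], by linarith [t.2.2]⟩
    have hg : @Continuous _ _ _ (relTopology tri) g := by
      apply hcont _ g (by fun_prop)
      · convert isOpen_empty
        ext t
        simp only [Set.mem_preimage, Set.mem_ofPred_eq, Set.mem_empty_iff_false, iff_false, not_le]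
        exact t.2.1
      · convert isOpen_empty
        ext t
        simp only [Set.mem_preimage, Set.mem_ofPred_eq, Set.mem_empty_iff_false, iff_false, not_le]
        exact t.2.2
    have hr : {x : Set.Icc (0 : ℝ) 3 | 1 < (x : ℝ) ∧ (x : ℝ) < 2} = Set.range g := by
      ext x
      constructor
      · intro hx
        exact ⟨⟨x, hx⟩, rfl⟩
      · rintro ⟨t, rfl⟩
        exact t.2
    rw [hr]
    exact @isPreconnected_range _ _ _ (relTopology tri) _ _ hg
  have hcomp : @IsCompact _ (relTopology tri)
      {x : Set.Icc (0 : ℝ) 3 | 1 < (x : ℝ) ∧ (x : ℝ) < 2}ᶜ := by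
    let g1 : Set.Icc (0 : ℝ) 1 → Set.Icc (0 : ℝ) 3 := fun t =>
      ⟨t, by linarith [t.2.1], by linarith [t.2.2]⟩
    let g2 : Set.Icc (2 : ℝ) 3 → Set.Icc (0 : ℝ) 3 := fun t =>
      ⟨t, by linarith [t.2.1], by linarith [t.2.2]⟩
    have hg1 : @Continuous _ _ _ (relTopology tri) g1 := by
      apply hcont _ g1 (by fun_prop)
      · convert isOpen_univ
        ext t
        simp only [Set.mem_preimage, Set.mem_ofPred_eq, Set.mem_univ, iff_true]
        exact t.2.2
      · convert isOpen_empty
        ext t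
        simp only [Set.mem_preimage, Set.mem_ofPred_eq, Set.mem_empty_iff_false, iff_false, not_le]
        exact lt_of_le_of_lt t.2.2 (by norm_num)
    have hg2 : @Continuous _ _ _ (relTopology tri) g2 := by
      apply hcont _ g2 (by fun_prop)
      · convert isOpen_empty
        ext t
        simp only [Set.mem_preimage, Set.mem_ofPred_eq, Set.mem_empty_iff_false, iff_false, not_le]
        exact lt_of_lt_of_le (by norm_num) t.2.1
      · convert isOpen_univ
        ext t
        simp only [Set.mem_preimage, Set.mem_ofPred_eq, Set.mem_univ, iff_true]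
        exact t.2.1
    have hr : {x : Set.Icc (0 : ℝ) 3 | 1 < (x : ℝ) ∧ (x : ℝ) < 2}ᶜ =
        Set.range g1 ∪ Set.range g2 := by
      ext x
      simp only [Set.mem_compl_iff, Set.mem_ofPred_eq, Set.mem_union, not_and_or, not_lt]
      constructor
      · rintro (h | h)
        · exact Or.inl ⟨⟨x, x.2.1, h⟩, rfl⟩
        · exact Or.inr ⟨⟨x, h, x.2.2⟩, rfl⟩
      · rintro (⟨t, rfl⟩ | ⟨t, rfl⟩)
        · exact Or.inl t.2.2
        · exact Or.inr t.2.1
    rw [hr]
    exact @IsCompact.union _ (relTopology tri) _ _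
      (@isCompact_range _ _ _ (relTopology tri) _ _ hg1)
      (@isCompact_range _ _ _ (relTopology tri) _ _ hg2)
  exact @TP.no_order _ (lin s htot htrans hanti) (relTopology tri) hO (fun x : Set.Icc (0 : ℝ) 3 => (x : ℝ)) hf
    (fun t h0 h3 => ⟨⟨t, h0, h3⟩, rfl⟩) Subtype.val_injective h1 h2 hconn hcomp

end Pool.Agent.Lib.MP_d11cf5_gt
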