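import Pool.Agent.Lib.MP_d11cf5_gt.Orderable
import Pool.Agent.Lib.MP_d11cf5_gt.ThreePieces

/-!
# Topologies induced by interval orders and semiorders: the Sorgenfrey line, the three pieces

The Sorgenfrey line is cut into the pieces `[n, n + 1)`, which are arranged in rows; from one row to
the next the direction changes.
-/

set_option autoImplicit false

namespace Pool.Agent.Lib.MP_d11cf5_gt

open TopologicalSpace Topology

namespace SorgM

/-- a bijection of the integers with the pairs of integers -/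
noncomputable def bb : ℤ ≃ ℤ × ℤ := (Denumerable.eqv ℤ).trans (Denumerable.eqv (ℤ × ℤ)).symm

/-- the row -/
noncomputable def K (x : ℝ) : ℤ := (bb ⌊x⌋).1

/-- the coordinate in the row -/
noncomputable def C (x : ℝ) : ℝ := (bb ⌊x⌋).2 + Int.fract x

/-- the semiorder -/
def rel (x y : ℝ) : Prop :=
  K x + 1 < K y ∨ (K y = K x + 1 ∧ ((K x % 2 = 0 ∧ 0 ≤ C x + C y) ∨
    (K x % 2 = 1 ∧ C x + C y < 0)))

theorem rel_semiorder : IsSemiorder rel where
  irrefl := by
    rintro x (h | ⟨h, -⟩) <;> omega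
  cross := by
    intro x y z w hxy hzw
    by_contra hc
    rw [not_or] at hc
    obtain ⟨h1, h2⟩ := hc
    unfold rel at *
    rw [not_or, not_and_or, not_or, not_and_or, not_and_or] at h1 h2
    obtain ⟨h1, h1'⟩ := h1
    obtain ⟨h2, h2'⟩ := h2
    have hxy1 : K x + 1 ≤ K y := by
      rcases hxy with h | h
      · exact h.le
      · exact h.1.symm.le
    have hzw1 : K z + 1 ≤ K w := by
      rcases hzw with h | h
      · exact h.le
      · exact h.1.symm.le
    have e1 : K z = K x := by omega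
    have e2 : K y = K x + 1 := by omega
    have e3 : K w = K x + 1 := by omega
    rw [e1, e3] at hzw
    rw [e2] at hxy
    rw [e3] at h1'
    rw [e1, e2] at h2'
    rcases hxy with h | ⟨-, ⟨ha, hb⟩ | ⟨ha, hb⟩⟩
    · omega
    · rcases hzw with h | ⟨-, ⟨hc, hd⟩ | ⟨hc, hd⟩⟩
      · omega
      · rcases h1' with h | ⟨h | h, -⟩
        · omega
        · omega
        · rcases h2' with h' | ⟨h' | h', -⟩
          · omega
          · omega
          · linarith
      · omega
    · rcases hzw with h | ⟨-, ⟨hc, hd⟩ | ⟨hc, hd⟩⟩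
      · omega
      · omega
      · rcases h1' with h | ⟨-, h | h⟩
        · omega
        · omega
        · rcases h2' with h' | ⟨-, h' | h'⟩
          · omega
          · omega
          · linarith
  semi := by
    intro x y z w hxy hyz
    by_contra hc
    rw [not_or] at hc
    obtain ⟨h1, h2⟩ := hc
    unfold rel at *
    rw [not_or, not_and_or, not_or, not_and_or, not_and_or] at h1 h2
    obtain ⟨h1, h1'⟩ := h1
    obtain ⟨h2, h2'⟩ := h2
    have hxy1 : K x + 1 ≤ K y := by
      rcases hxy with h | h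
      · exact h.le
      · exact h.1.symm.le
    have hyz1 : K y + 1 ≤ K z := by
      rcases hyz with h | h
      · exact h.le
      · exact h.1.symm.le
    have e1 : K y = K x + 1 := by omega
    have e2 : K z = K x + 1 + 1 := by omega
    have e3 : K w = K x + 1 := by omega
    rw [e1] at hxy
    rw [e1, e2] at hyz
    rw [e3] at h1'
    rw [e3, e2] at h2'
    rcases hxy with h | ⟨-, ⟨ha, hb⟩ | ⟨ha, hb⟩⟩
    · omega
    · rcases hyz with h | ⟨-, ⟨hc, hd⟩ | ⟨hc, hd⟩⟩
      · omega
      · omega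
      · rcases h1' with h | ⟨h | h, -⟩
        · omega
        · omega
        · rcases h2' with h' | ⟨-, h' | h'⟩
          · omega
          · omega
          · linarith
    · rcases hyz with h | ⟨-, ⟨hc, hd⟩ | ⟨hc, hd⟩⟩
      · omega
      · rcases h1' with h | ⟨-, h | h⟩
        · omega
        · omega
        · rcases h2' with h' | ⟨h' | h', -⟩
          · omega
          · omega
          · linarith
      · omega

theorem exists_point (k : ℤ) (w : ℝ) : ∃ p : ℝ, K p = k ∧ C p = w := by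
  refine ⟨(bb.symm (k, ⌊w⌋) : ℤ) + Int.fract w, ?_⟩
  have h1 : ⌊((bb.symm (k, ⌊w⌋) : ℤ) : ℝ) + Int.fract w⌋ = bb.symm (k, ⌊w⌋) := by
    rw [Int.floor_intCast_add, Int.floor_fract, add_zero]
  have h2 : Int.fract (((bb.symm (k, ⌊w⌋) : ℤ) : ℝ) + Int.fract w) = Int.fract w := by
    rw [Int.fract_intCast_add, Int.fract_fract]
  unfold K C
  rw [h1, h2, Equiv.apply_symm_apply]
  exact ⟨rfl, Int.floor_add_fract w⟩

/-- moving to the right inside a piece -/
theorem shift {a δ : ℝ} (h0 : 0 ≤ δ) (h1 : Int.fract a + δ < 1) :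
    K (a + δ) = K a ∧ C (a + δ) = C a + δ := by
  have hf : ⌊a + δ⌋ = ⌊a⌋ := by
    rw [Int.floor_eq_iff]
    have h2 := Int.floor_add_fract a
    have h3 := Int.fract_nonneg a
    constructor <;> linarith
  unfold K C
  rw [hf]
  refine ⟨rfl, ?_⟩
  have h2 := Int.floor_add_fract a
  have h3 := Int.floor_add_fract (a + δ)
  rw [hf] at h3
  linarith

/-- a point is determined by its row and its coordinate -/
theorem unshift {c a : ℝ} {ε : ℝ} (hε : Int.fract c + ε ≤ 1) (hK : K a = K c)
    (h1 : C c ≤ C a) (h2 : C a < C c + ε) : c ≤ a ∧ a < c + ε := by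
  unfold K C at *
  have h3 := Int.fract_nonneg a
  have h4 := Int.fract_lt_one a
  have h5 := Int.fract_nonneg c
  have h6 := Int.fract_lt_one c
  have hj : (bb ⌊a⌋).2 = (bb ⌊c⌋).2 := by
    have ha : ((bb ⌊a⌋).2 : ℝ) < (bb ⌊c⌋).2 + 1 := by linarith
    have hb : ((bb ⌊c⌋).2 : ℝ) < (bb ⌊a⌋).2 + 1 := by linarith
    have ha' : (bb ⌊a⌋).2 < (bb ⌊c⌋).2 + 1 := by exact_mod_cast ha
    have hb' : (bb ⌊c⌋).2 < (bb ⌊a⌋).2 + 1 := by exact_mod_cast hb
    omega
  have hf : ⌊a⌋ = ⌊c⌋ := bb.injective (Prod.ext hK hj)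
  rw [hf] at h1 h2
  have h7 := Int.floor_add_fract a
  have h8 := Int.floor_add_fract c
  rw [hf] at h7
  constructor <;> linarith

/-- A set containing a short interval to the right of each of its points is open. -/
theorem open_of_right {S : Set ℝ} (h : ∀ a ∈ S, ∃ ε > 0, ∀ δ, 0 ≤ δ → δ < ε → a + δ ∈ S) :
    IsOpen[sorgenfrey] S := by
  let _ := sorgenfrey
  rw [isOpen_iff_forall_mem_open]
  intro a ha
  obtain ⟨ε, hε, h1⟩ := h a ha
  refine ⟨Set.Ico a (a + ε), ?_, isOpen_generateFrom_of_mem ⟨a, a + ε, rfl⟩, ?_⟩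
  · rintro y ⟨hy1, hy2⟩
    have := h1 (y - a) (by linarith) (by linarith)
    rwa [add_sub_cancel] at this
  · exact ⟨le_rfl, by linarith⟩

theorem rel_right {x a : ℝ} (h : rel x a) : ∃ ε > 0, ∀ δ, 0 ≤ δ → δ < ε → rel x (a + δ) := by
  have hf := Int.fract_lt_one a
  rcases h with h | ⟨h, ⟨h1, h2⟩ | ⟨h1, h2⟩⟩
  · refine ⟨1 - Int.fract a, by linarith, fun δ h0 hδ => ?_⟩
    obtain ⟨e1, e2⟩ := shift (a := a) h0 (by linarith)
    left
    rw [e1]
    exact h
  · refine ⟨1 - Int.fract a, by linarith, fun δ h0 hδ => ?_⟩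
    obtain ⟨e1, e2⟩ := shift (a := a) h0 (by linarith)
    right
    rw [e1, e2]
    exact ⟨h, Or.inl ⟨h1, by linarith⟩⟩
  · refine ⟨min (1 - Int.fract a) (-(C x + C a)), lt_min (by linarith) (by linarith),
      fun δ h0 hδ => ?_⟩
    have h3 := hδ.trans_le (min_le_left _ _)
    have h4 := hδ.trans_le (min_le_right _ _)
    obtain ⟨e1, e2⟩ := shift (a := a) h0 (by linarith)
    right
    rw [e1, e2]
    exact ⟨h, Or.inr ⟨h1, by linarith⟩⟩

theorem rel_left {a y : ℝ} (h : rel a y) : ∃ ε > 0, ∀ δ, 0 ≤ δ → δ < ε → rel (a + δ) y := by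
  have hf := Int.fract_lt_one a
  rcases h with h | ⟨h, ⟨h1, h2⟩ | ⟨h1, h2⟩⟩
  · refine ⟨1 - Int.fract a, by linarith, fun δ h0 hδ => ?_⟩
    obtain ⟨e1, e2⟩ := shift (a := a) h0 (by linarith)
    left
    rw [e1]
    exact h
  · refine ⟨1 - Int.fract a, by linarith, fun δ h0 hδ => ?_⟩
    obtain ⟨e1, e2⟩ := shift (a := a) h0 (by linarith)
    right
    rw [e1, e2]
    exact ⟨h, Or.inl ⟨h1, by linarith⟩⟩
  · refine ⟨min (1 - Int.fract a) (-(C a + C y)), lt_min (by linarith) (by linarith),
      fun δ h0 hδ => ?_⟩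
    have h3 := hδ.trans_le (min_le_left _ _)
    have h4 := hδ.trans_le (min_le_right _ _)
    obtain ⟨e1, e2⟩ := shift (a := a) h0 (by linarith)
    right
    rw [e1, e2]
    exact ⟨h, Or.inr ⟨h1, by linarith⟩⟩

/-- A small neighbourhood of `c` in the topology of `rel`. -/
theorem exists_nhd (c ε : ℝ) (hε : 0 < ε) (hε1 : Int.fract c + ε ≤ 1) :
    ∃ p q : ℝ, rel p c ∧ rel c q ∧ ∀ a, rel p a → rel a q → c ≤ a ∧ a < c + ε := by
  rcases Int.emod_two_eq_zero_or_one (K c) with hk | hk
  · obtain ⟨p, hp1, hp2⟩ := exists_point (K c - 1) (-(C c + ε))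
    obtain ⟨q, hq1, hq2⟩ := exists_point (K c + 1) (-C c)
    refine ⟨p, q, ?_, ?_, ?_⟩
    · right
      rw [hp1, hp2]
      exact ⟨by omega, Or.inr ⟨by omega, by linarith⟩⟩
    · right
      rw [hq1, hq2]
      exact ⟨rfl, Or.inl ⟨hk, by linarith⟩⟩
    · intro a ha hb
      unfold rel at ha hb
      rw [hp1, hp2] at ha
      rw [hq1, hq2] at hb
      have hK : K a = K c := by omega
      have h1 : C a < C c + ε := by
        rcases ha with h | ⟨-, ⟨h, -⟩ | ⟨-, h⟩⟩
        · omega
        · omega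
        · linarith
      have h2 : C c ≤ C a := by
        rcases hb with h | ⟨-, ⟨-, h⟩ | ⟨h, -⟩⟩
        · omega
        · linarith
        · omega
      exact unshift hε1 hK h2 h1
  · obtain ⟨p, hp1, hp2⟩ := exists_point (K c - 1) (-C c)
    obtain ⟨q, hq1, hq2⟩ := exists_point (K c + 1) (-(C c + ε))
    refine ⟨p, q, ?_, ?_, ?_⟩
    · right
      rw [hp1, hp2]
      exact ⟨by omega, Or.inl ⟨by omega, by linarith⟩⟩
    · right
      rw [hq1, hq2]
      exact ⟨rfl, Or.inr ⟨hk, by linarith⟩⟩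
    · intro a ha hb
      unfold rel at ha hb
      rw [hp1, hp2] at ha
      rw [hq1, hq2] at hb
      have hK : K a = K c := by omega
      have h1 : C a < C c + ε := by
        rcases hb with h | ⟨-, ⟨h, -⟩ | ⟨-, h⟩⟩
        · omega
        · omega
        · linarith
      have h2 : C c ≤ C a := by
        rcases ha with h | ⟨-, ⟨-, h⟩ | ⟨h, -⟩⟩
        · omega
        · linarith
        · omega
      exact unshift hε1 hK h2 h1

end SorgM

open SorgM in
/-- The Sorgenfrey topology is induced by a semiorder. -/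
theorem sorgenfrey_semiorder : ∃ r : ℝ → ℝ → Prop, IsSemiorder r ∧ sorgenfrey = relTopology r := by
  refine ⟨rel, rel_semiorder, le_antisymm ?_ ?_⟩
  · apply TP.le_gen
    · intro x
      exact open_of_right fun a ha => rel_right ha
    · intro y
      exact open_of_right fun a ha => rel_left ha
  · apply le_generateFrom
    rintro S ⟨a, b, rfl⟩
    let _ := relTopology rel
    rw [isOpen_iff_forall_mem_open]
    rintro c ⟨hac, hcb⟩
    have hf := Int.fract_lt_one c
    obtain ⟨p, q, h1, h2, h3⟩ := exists_nhd c (min (b - c) (1 - Int.fract c))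
      (lt_min (by linarith) (by linarith)) (by linarith [min_le_right (b - c) (1 - Int.fract c)])
    refine ⟨up rel p ∩ down rel q, ?_, ?_, h1, h2⟩
    · rintro y ⟨hy1, hy2⟩
      obtain ⟨h4, h5⟩ := h3 y hy1 hy2
      exact ⟨by linarith, by linarith [min_le_left (b - c) (1 - Int.fract c)]⟩
    · exact (isOpen_generateFrom_of_mem (Or.inl (Or.inr ⟨p, rfl⟩))).inter
        (isOpen_generateFrom_of_mem (Or.inr ⟨q, rfl⟩))

/-- The three pieces have the topology of `tri`. -/
theorem threePieces_eq : threePieces = relTopology tri := by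
  rw [tri_topology]
  apply le_antisymm
  · apply le_inf
    · intro S hS
      exact isOpen_generateFrom_of_mem (Or.inl hS)
    · apply le_generateFrom
      rintro S (rfl | hS)
      · exact isOpen_generateFrom_of_mem (Or.inr (Or.inl rfl))
      · rw [Set.mem_singleton_iff.1 hS]
        exact isOpen_generateFrom_of_mem (Or.inr (Or.inr rfl))
  · apply le_generateFrom
    rintro S (hS | rfl | rfl)
    · exact (inf_le_left : (inferInstance : TopologicalSpace (Set.Icc (0 : ℝ) 3)) ⊓ _ ≤ _) _ hS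
    · exact (inf_le_right : _ ⊓ generateFrom _ ≤ _) _ (isOpen_generateFrom_of_mem (Or.inl rfl))
    · exact (inf_le_right : _ ⊓ generateFrom _ ≤ _) _ (isOpen_generateFrom_of_mem (Or.inr rfl))

end Pool.Agent.Lib.MP_d11cf5_gt
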