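import Pool.Agent.Lib.MP_d11cf5_gt.Orderable
import Pool.Agent.Lib.MP_d11cf5_gt.ThreePieces

/-!
# The Sorgenfrey line is not the order topology of a total preorder

Let `<` be a total order whose order topology is the Sorgenfrey topology, and let `J` be the set of
the points `a` with a successor `σ a`. If `J` is countable, then the order topology is second
countable (there is a countable dense set). If `J` is uncountable, then some `a ∈ J` is a limit of
points `b ∈ J` from the right with `σ b` close to `σ a` in the usual distance; but `b < a`, so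
`b < σ b ≤ a` and `σ b` tends to `a`.
-/

set_option autoImplicit false

namespace Pool.Agent.Lib.MP_d11cf5_gt

open TopologicalSpace Topology

namespace SNP

theorem ico_open (a b : ℝ) : IsOpen[sorgenfrey] (Set.Ico a b) :=
  isOpen_generateFrom_of_mem ⟨a, b, rfl⟩

/-- Neighbourhoods in the Sorgenfrey line. -/
theorem nhd {U : Set ℝ} (hU : IsOpen[sorgenfrey] U) :
    ∀ x ∈ U, ∃ ε : ℝ, 0 < ε ∧ Set.Ico x (x + ε) ⊆ U := by
  have hU' : GenerateOpen {S : Set ℝ | ∃ a b : ℝ, S = Set.Ico a b} U := hU
  clear hU
  induction hU' with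
  | basic S hS =>
    obtain ⟨a, b, rfl⟩ := hS
    intro x hx
    refine ⟨b - x, by linarith [hx.2], fun y hy => ⟨hx.1.trans hy.1, ?_⟩⟩
    have := hy.2
    linarith
  | univ => exact fun x _ => ⟨1, one_pos, Set.subset_univ _⟩
  | inter S T _ _ ihS ihT =>
    rintro x ⟨hxS, hxT⟩
    obtain ⟨ε, hε, h1⟩ := ihS x hxS
    obtain ⟨δ, hδ, h2⟩ := ihT x hxT
    refine ⟨min ε δ, lt_min hε hδ, fun y hy => ⟨h1 ⟨hy.1, ?_⟩, h2 ⟨hy.1, ?_⟩⟩⟩
    · have := min_le_left ε δ
      linarith [hy.2]
    · have := min_le_right ε δ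
      linarith [hy.2]
  | sUnion F _ ih =>
    rintro x ⟨S, hS, hxS⟩
    obtain ⟨ε, hε, h1⟩ := ih S hS x hxS
    exact ⟨ε, hε, h1.trans (Set.subset_sUnion_of_mem hS)⟩

/-- The Sorgenfrey line is not second countable. -/
theorem not_second : ¬ @SecondCountableTopology ℝ sorgenfrey := by
  intro h
  let _ : TopologicalSpace ℝ := sorgenfrey
  have hb := @isBasis_countableBasis ℝ sorgenfrey h
  have hc := @countable_countableBasis ℝ sorgenfrey h
  have hex : ∀ x : ℝ, ∃ V ∈ @countableBasis ℝ sorgenfrey h, x ∈ V ∧ V ⊆ Set.Ico x (x + 1) :=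
    fun x => @IsTopologicalBasis.exists_subset_of_mem_open ℝ sorgenfrey _ hb x _
      ⟨le_refl x, by linarith⟩ (ico_open x (x + 1))
  choose V hV hxV hsub using hex
  have hinj : Function.Injective V := by
    intro x y hxy
    have h1 : x ∈ V y := hxy ▸ hxV x
    have h2 : y ∈ V x := hxy.symm ▸ hxV y
    exact le_antisymm (hsub x h2).1 (hsub y h1).1
  have h3 : (Set.range V).Countable := hc.mono (by
    rintro _ ⟨x, rfl⟩
    exact hV x)
  have h4 : Countable ℝ := by
    have h5 : Countable (Set.range V) := h3.to_subtype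
    exact (Set.rangeFactorization_injective.2 hinj).countable
  exact not_countable (α := ℝ) h4

/-- Every nonempty open set contains a rational number. -/
theorem exists_rat {U : Set ℝ} (hU : IsOpen[sorgenfrey] U) (hne : U.Nonempty) :
    ∃ q : ℚ, (q : ℝ) ∈ U := by
  obtain ⟨x, hx⟩ := hne
  obtain ⟨ε, hε, h⟩ := nhd hU x hx
  obtain ⟨q, h1, h2⟩ := exists_rat_btwn (show x < x + ε by linarith)
  exact ⟨q, h ⟨h1.le, h2⟩⟩

end SNP

open SNP TP in
/-- The Sorgenfrey line is not the order topology of a total preorder. -/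
theorem sorgenfrey_not_preorderable : ¬ IsPreorderable sorgenfrey := by
  rintro ⟨s, ⟨htot, htrans⟩, hτ⟩
  have hupo : ∀ x, IsOpen[sorgenfrey] {y | strict s x y} := by
    intro x
    rw [hτ]
    exact isOpen_generateFrom_of_mem (Or.inl (Or.inr ⟨x, rfl⟩))
  have hdno : ∀ x, IsOpen[sorgenfrey] {y | strict s y x} := by
    intro x
    rw [hτ]
    exact isOpen_generateFrom_of_mem (Or.inr ⟨x, rfl⟩)
  -- `s` is antisymmetric
  have hanti : ∀ x y, s x y → s y x → x = y := by
    have key : ∀ x y, s x y → s y x → ∀ U : Set ℝ, IsOpen[sorgenfrey] U → x ∈ U → y ∈ U := by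
      intro x y hxy hyx U hU
      rw [hτ] at hU
      have hU' : GenerateOpen ({∅, Set.univ} ∪ Set.range (up (strict s)) ∪
        Set.range (down (strict s))) U := hU
      clear hU
      induction hU' with
      | basic S hS =>
        rcases hS with ((hS | hS) | ⟨z, rfl⟩) | ⟨z, rfl⟩
        · intro h1
          rw [hS] at h1
          exact absurd h1 (Set.notMem_empty x)
        · intro _
          rw [Set.mem_singleton_iff.1 hS]
          exact Set.mem_univ y
        · intro h1
          have h1' : strict s z x := h1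
          exact ⟨htrans _ _ _ h1'.1 hxy, fun h2 => h1'.2 (htrans _ _ _ hxy h2)⟩
        · intro h1
          have h1' : strict s x z := h1
          exact ⟨htrans _ _ _ hyx h1'.1, fun h2 => h1'.2 (htrans _ _ _ h2 hyx)⟩
      | univ => exact fun _ => Set.mem_univ y
      | inter S T _ _ ihS ihT => exact fun h2 => ⟨ihS h2.1, ihT h2.2⟩
      | sUnion F _ ih =>
        rintro ⟨S, hS, hwS⟩
        exact ⟨S, hS, ih S hS hwS⟩
    have hle : ∀ x y, s x y → s y x → y ≤ x := by
      intro x y hxy hyx
      exact (key y x hyx hxy _ (ico_open y (y + 1)) ⟨le_refl y, by linarith⟩).1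
    exact fun x y hxy hyx => le_antisymm (hle y x hyx hxy) (hle x y hxy hyx)
  have hirr : ∀ x, ¬ strict s x x := fun x h => h.2 h.1
  have hstr : ∀ x y, x = y ∨ strict s x y ∨ strict s y x := by
    intro x y
    by_cases hxy : x = y
    · exact Or.inl hxy
    · right
      rcases htot x y with h | h
      · exact Or.inl ⟨h, fun h' => hxy (hanti x y h h')⟩
      · exact Or.inr ⟨h, fun h' => hxy (hanti x y h' h)⟩
  have hst : ∀ {x y z}, strict s x y → strict s y z → strict s x z := by
    intro x y z h1 h2
    exact ⟨htrans _ _ _ h1.1 h2.1, fun h3 => h1.2 (htrans _ _ _ h2.1 h3)⟩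
  -- the pairs of neighbours
  let nb : ℝ → ℝ → Prop := fun a b => strict s a b ∧ ∀ c, ¬ (strict s a c ∧ strict s c b)
  let J : Set ℝ := {a | ∃ b, nb a b}
  have hJ : ∀ a : J, ∃ b, nb a.1 b := fun a => a.2
  choose σ hσ using hJ
  have hσeq : ∀ (a : J) (b : ℝ), nb a.1 b → b = σ a := by
    intro a b hb
    rcases hstr b (σ a) with h | h | h
    · exact h
    · exact absurd ⟨hb.1, h⟩ ((hσ a).2 b)
    · exact absurd ⟨(hσ a).1, h⟩ (hb.2 (σ a))
  by_cases hJc : J.Countable
  · -- second countable
    apply not_second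
    have hJc' : Countable J := hJc.to_subtype
    let C : Set ℝ := Set.range (fun q : ℚ => (q : ℝ)) ∪ (J ∪ Set.range σ)
    have hC : C.Countable :=
      (Set.countable_range _).union (hJc.union (Set.countable_range σ))
    let B : Set (Set ℝ) := (fun c => {y | strict s c y}) '' C ∪ (fun c => {y | strict s y c}) '' C
    have hB : B.Countable := (hC.image _).union (hC.image _)
    have hup : ∀ a, IsOpen[generateFrom B] {y | strict s a y} := by
      intro a
      by_cases ha : a ∈ J
      · exact isOpen_generateFrom_of_mem (Or.inl ⟨a, Or.inr (Or.inl ha), rfl⟩)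
      · have h1 : {y | strict s a y} = ⋃₀ {S | ∃ c ∈ C, strict s a c ∧ S = {y | strict s c y}} := by
          ext y
          constructor
          · intro hy
            have hy' : strict s a y := hy
            have h2 : ∃ c, strict s a c ∧ strict s c y := by
              by_contra hcon
              push Not at hcon
              exact ha ⟨y, hy', fun c hc => hcon c hc.1 hc.2⟩
            have h3 : IsOpen[sorgenfrey] ({c | strict s a c} ∩ {c | strict s c y}) :=
              sorgenfrey.isOpen_inter _ _ (hupo a) (hdno y)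
            obtain ⟨q, hq1, hq2⟩ := exists_rat h3 h2
            exact ⟨_, ⟨(q : ℝ), Or.inl ⟨q, rfl⟩, hq1, rfl⟩, hq2⟩
          · rintro ⟨S, ⟨c, -, hc, rfl⟩, hy⟩
            exact hst hc hy
        rw [h1]
        refine @isOpen_sUnion ℝ (generateFrom B) _ ?_
        rintro S ⟨c, hc, -, rfl⟩
        exact isOpen_generateFrom_of_mem (Or.inl ⟨c, hc, rfl⟩)
    have hdn : ∀ b, IsOpen[generateFrom B] {y | strict s y b} := by
      intro b
      by_cases hb : ∃ a, nb a b
      · obtain ⟨a, ha⟩ := hb
        have h1 : b = σ ⟨a, b, ha⟩ := hσeq ⟨a, b, ha⟩ b ha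
        exact isOpen_generateFrom_of_mem (Or.inr ⟨b, Or.inr (Or.inr ⟨_, h1.symm⟩), rfl⟩)
      · have h1 : {y | strict s y b} = ⋃₀ {S | ∃ c ∈ C, strict s c b ∧ S = {y | strict s y c}} := by
          ext y
          constructor
          · intro hy
            have hy' : strict s y b := hy
            have h2 : ∃ c, strict s y c ∧ strict s c b := by
              by_contra hcon
              push Not at hcon
              exact hb ⟨y, hy', fun c hc => hcon c hc.1 hc.2⟩
            have h3 : IsOpen[sorgenfrey] ({c | strict s y c} ∩ {c | strict s c b}) :=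
              sorgenfrey.isOpen_inter _ _ (hupo y) (hdno b)
            obtain ⟨q, hq1, hq2⟩ := exists_rat h3 h2
            exact ⟨_, ⟨(q : ℝ), Or.inl ⟨q, rfl⟩, hq2, rfl⟩, hq1⟩
          · rintro ⟨S, ⟨c, -, hc, rfl⟩, hy⟩
            exact hst hy hc
        rw [h1]
        refine @isOpen_sUnion ℝ (generateFrom B) _ ?_
        rintro S ⟨c, hc, -, rfl⟩
        exact isOpen_generateFrom_of_mem (Or.inr ⟨c, hc, rfl⟩)
    refine @SecondCountableTopology.mk ℝ sorgenfrey ⟨B, hB, ?_⟩
    rw [hτ]
    apply le_antisymm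
    · apply le_generateFrom
      rintro S (⟨c, -, rfl⟩ | ⟨c, -, rfl⟩)
      · exact isOpen_generateFrom_of_mem (Or.inl (Or.inr ⟨c, rfl⟩))
      · exact isOpen_generateFrom_of_mem (Or.inr ⟨c, rfl⟩)
    · exact le_gen _ _ hup hdn
  · -- uncountably many pairs of neighbours
    have hneq : ∀ a : J, a.1 ≠ σ a := by
      intro a h
      have h1 := (hσ a).1
      rw [← h] at h1
      exact hirr _ h1
    -- a point of `J` which is a limit from the right with converging successors
    have hlim : ∃ a : J, ∀ n : ℕ, ∃ b : J, a.1 < b.1 ∧ b.1 < a.1 + 1 / (n + 1) ∧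
        |σ b - σ a| < 1 / (n + 1) := by
      by_contra hcon
      push Not at hcon
      choose N hN using hcon
      apply hJc
      have hinj : Function.Injective (fun a : J =>
          ((N a, ⌊((N a : ℝ) + 1) * a.1⌋, ⌊((N a : ℝ) + 1) * σ a⌋) : ℕ × ℤ × ℤ)) := by
        have hwlog : ∀ a b : J, N a = N b → ⌊((N a : ℝ) + 1) * a.1⌋ = ⌊((N b : ℝ) + 1) * b.1⌋ →
            ⌊((N a : ℝ) + 1) * σ a⌋ = ⌊((N b : ℝ) + 1) * σ b⌋ → ¬ a.1 < b.1 := by
          intro a b h1 h2 h3 hab
          rw [← h1] at h2 h3
          have hpos : (0 : ℝ) < (N a : ℝ) + 1 := by positivity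
          have h4 := Int.abs_sub_lt_one_of_floor_eq_floor h2
          have h5 := Int.abs_sub_lt_one_of_floor_eq_floor h3
          rw [← mul_sub, abs_mul, abs_of_pos hpos] at h4 h5
          have h6 : |a.1 - b.1| < 1 / ((N a : ℝ) + 1) := by
            rw [lt_div_iff₀ hpos]
            linarith
          have h7 : |σ a - σ b| < 1 / ((N a : ℝ) + 1) := by
            rw [lt_div_iff₀ hpos]
            linarith
          have h8 := hN a b hab (by
            have := (abs_lt.1 h6).1
            linarith)
          rw [abs_sub_comm] at h7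
          linarith
        intro a b hab
        simp only [Prod.mk.injEq] at hab
        obtain ⟨h1, h2, h3⟩ := hab
        apply Subtype.ext
        rcases lt_trichotomy a.1 b.1 with h | h | h
        · exact absurd h (hwlog a b h1 h2 h3)
        · exact h
        · exact absurd h (hwlog b a h1.symm h2.symm h3.symm)
      have h4 : Countable J := hinj.countable
      exact Set.countable_coe_iff.1 h4
    obtain ⟨a, ha⟩ := hlim
    -- `{y | y ≤ a}` is open
    have hIic : {y | strict s y (σ a)} = {y | y = a.1 ∨ strict s y a.1} := by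
      ext y
      constructor
      · intro hy
        rcases hstr y a.1 with h | h | h
        · exact Or.inl h
        · exact Or.inr h
        · exact absurd ⟨h, hy⟩ ((hσ a).2 y)
      · rintro (rfl | h)
        · exact (hσ a).1
        · exact hst h (hσ a).1
    have hIico := hdno (σ a)
    rw [hIic] at hIico
    obtain ⟨ε, hε, hsub⟩ := nhd hIico a.1 (Or.inl rfl)
    -- a usual neighbourhood of `a` that avoids `σ a`
    have hd : 0 < |a.1 - σ a| := abs_pos.2 (sub_ne_zero.2 (hneq a))
    -- the points of an order interval `(c, a]` are close to `a`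
    have hW : IsOpen[sorgenfrey] (Set.Ico a.1 (a.1 + |a.1 - σ a| / 2) ∩
        {y | y = a.1 ∨ strict s y a.1}) :=
      sorgenfrey.isOpen_inter _ _ (ico_open _ _) hIico
    have hc : ∃ c, strict s c a.1 ∧ ∀ y, strict s c y → (y = a.1 ∨ strict s y a.1) →
        y ∈ Set.Ico a.1 (a.1 + |a.1 - σ a| / 2) := by
      have hloc : ∀ U : Set ℝ, IsOpen[sorgenfrey] U → a.1 ∈ U →
          ∃ c, strict s c a.1 ∧ ∀ y, strict s c y → (y = a.1 ∨ strict s y a.1) → y ∈ U := by
        intro U hU
        -- `a` is not the least element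
        have hleast : ∃ c, strict s c a.1 := by
          obtain ⟨n, hn⟩ := exists_nat_one_div_lt hε
          obtain ⟨b, hb1, hb2, -⟩ := ha n
          have h1 : b.1 ∈ {y | y = a.1 ∨ strict s y a.1} := hsub ⟨hb1.le, by linarith⟩
          rcases h1 with h1 | h1
          · exact absurd h1 hb1.ne'
          · exact ⟨b.1, h1⟩
        rw [hτ] at hU
        have hU' : GenerateOpen ({∅, Set.univ} ∪ Set.range (up (strict s)) ∪
          Set.range (down (strict s))) U := hU
        clear hU
        induction hU' with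
        | basic S hS =>
          rcases hS with ((hS | hS) | ⟨z, rfl⟩) | ⟨z, rfl⟩
          · intro h1
            rw [hS] at h1
            exact absurd h1 (Set.notMem_empty _)
          · intro _
            obtain ⟨c, hc⟩ := hleast
            refine ⟨c, hc, fun y _ _ => ?_⟩
            rw [Set.mem_singleton_iff.1 hS]
            exact Set.mem_univ y
          · intro h1
            exact ⟨z, h1, fun y hy _ => hy⟩
          · intro h1
            obtain ⟨c, hc⟩ := hleast
            refine ⟨c, hc, ?_⟩
            rintro y - (rfl | hy)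
            · exact h1
            · exact hst hy h1
        | univ =>
          intro _
          obtain ⟨c, hc⟩ := hleast
          exact ⟨c, hc, fun y _ _ => Set.mem_univ y⟩
        | inter S T _ _ ihS ihT =>
          intro h2
          obtain ⟨c, hc, hcS⟩ := ihS h2.1
          obtain ⟨d, hd, hdT⟩ := ihT h2.2
          rcases hstr c d with h | h | h
          · refine ⟨c, hc, fun y h3 h4 => ⟨hcS y h3 h4, hdT y (h ▸ h3) h4⟩⟩
          · exact ⟨d, hd, fun y h3 h4 => ⟨hcS y (hst h h3) h4, hdT y h3 h4⟩⟩
          · exact ⟨c, hc, fun y h3 h4 => ⟨hcS y h3 h4, hdT y (hst h h3) h4⟩⟩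
        | sUnion F _ ih =>
          rintro ⟨S, hS, hwS⟩
          obtain ⟨c, hc, hcS⟩ := ih S hS hwS
          exact ⟨c, hc, fun y h3 h4 => ⟨S, hS, hcS y h3 h4⟩⟩
      obtain ⟨c, hc, hcU⟩ := hloc _ hW ⟨⟨le_refl _, by linarith⟩, Or.inl rfl⟩
      exact ⟨c, hc, fun y h1 h2 => (hcU y h1 h2).1⟩
    obtain ⟨c, hca, hcU⟩ := hc
    obtain ⟨δ, hδ, hsub'⟩ := nhd (hupo c) a.1 hca
    -- choose `b`
    obtain ⟨n, hn⟩ := exists_nat_one_div_lt (lt_min (lt_min hε hδ) (half_pos hd))
    obtain ⟨b, hb1, hb2, hb3⟩ := ha n
    have hn1 : 1 / ((n : ℝ) + 1) < ε := lt_of_lt_of_le hn ((min_le_left _ _).trans (min_le_left _ _))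
    have hn2 : 1 / ((n : ℝ) + 1) < δ := lt_of_lt_of_le hn ((min_le_left _ _).trans (min_le_right _ _))
    have hn3 : 1 / ((n : ℝ) + 1) < |a.1 - σ a| / 2 := lt_of_lt_of_le hn (min_le_right _ _)
    have hba : strict s b.1 a.1 := by
      have h1 : b.1 ∈ {y | y = a.1 ∨ strict s y a.1} := hsub ⟨hb1.le, by linarith⟩
      rcases h1 with h1 | h1
      · exact absurd h1 hb1.ne'
      · exact h1
    have hcb : strict s c b.1 := hsub' ⟨hb1.le, by linarith⟩
    have hσb : σ b = a.1 ∨ strict s (σ b) a.1 := by
      rcases hstr (σ b) a.1 with h | h | h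
      · exact Or.inl h
      · exact Or.inr h
      · exact absurd ⟨hba, h⟩ ((hσ b).2 a.1)
    have hfin := hcU (σ b) (hst hcb (hσ b).1) hσb
    -- `σ b` is close to `a` and to `σ a`
    have h1 : |σ b - a.1| < |a.1 - σ a| / 2 := by
      rw [abs_of_nonneg (by linarith [hfin.1])]
      linarith [hfin.2]
    have h2 : |a.1 - σ a| ≤ |σ b - a.1| + |σ b - σ a| := by
      have h3 : a.1 - σ a = (σ b - σ a) - (σ b - a.1) := by ring
      rw [h3]
      exact (abs_sub _ _).trans (by linarith)
    linarith

end Pool.Agent.Lib.MP_d11cf5_gt
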