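import Pool.Agent.Lib.MP_d11cf5_gt.TwoChains

/-!
# Compact or connected `T₁` topologies induced by interval orders are order topologies (helper22)
-/

set_option autoImplicit false

namespace Pool.Agent.Lib.MP_d11cf5_gt

open TopologicalSpace Topology

variable {X : Type*}

namespace T1M

variable {D V : Set (Set X)}

/-- the order given by the first chain -/
def lt' (D : Set (Set X)) (x y : X) : Prop := ∃ A ∈ D, x ∈ A ∧ y ∉ A

theorem lt_asymm' (hD : ∀ A ∈ D, ∀ B ∈ D, A ⊆ B ∨ B ⊆ A) {x y : X} (h : lt' D x y) :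
    ¬ lt' D y x := by
  rintro ⟨B, hB, hyB, hxB⟩
  obtain ⟨A, hA, hxA, hyA⟩ := h
  rcases hD A hA B hB with h1 | h1
  · exact hxB (h1 hxA)
  · exact hyA (h1 hyB)

theorem lt_trans' (hD : ∀ A ∈ D, ∀ B ∈ D, A ⊆ B ∨ B ⊆ A) {x y z : X} (h : lt' D x y)
    (h' : lt' D y z) : lt' D x z := by
  obtain ⟨A, hA, hxA, hyA⟩ := h
  obtain ⟨B, hB, hyB, hzB⟩ := h'
  rcases hD A hA B hB with h1 | h1
  · exact ⟨B, hB, h1 hxA, hzB⟩
  · exact absurd (h1 hyB) hyA

/-- separation by a subbasic set -/
theorem exists_sub (h1 : @T1Space X (generateFrom (D ∪ V))) {x y : X} (hxy : x ≠ y) :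
    ∃ S ∈ D ∪ V, x ∈ S ∧ y ∉ S := by
  let _ : TopologicalSpace X := generateFrom (D ∪ V)
  by_contra hcon
  push Not at hcon
  have hall : ∀ S : Set X, IsOpen S → x ∈ S → y ∈ S := by
    intro S hS
    induction hS with
    | basic S hS => exact hcon S hS
    | univ => exact fun _ => Set.mem_univ y
    | inter S T _ _ ihS ihT => exact fun h2 => ⟨ihS h2.1, ihT h2.2⟩
    | sUnion F _ ih =>
      rintro ⟨S, hS, hwS⟩
      exact ⟨S, hS, ih S hS hwS⟩
  have h2 := hall ({y}ᶜ) (isOpen_compl_singleton) (by simpa using hxy)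
  exact h2 rfl

theorem total (hV : ∀ A ∈ V, ∀ B ∈ V, A ⊆ B ∨ B ⊆ A)
    (h1 : @T1Space X (generateFrom (D ∪ V))) {x y : X} (hxy : x ≠ y) :
    lt' D x y ∨ lt' D y x := by
  obtain ⟨S, hS, hxS, hyS⟩ := exists_sub h1 hxy
  obtain ⟨T, hT, hyT, hxT⟩ := exists_sub h1 hxy.symm
  rcases hS with hS | hS
  · exact Or.inl ⟨S, hS, hxS, hyS⟩
  · rcases hT with hT | hT
    · exact Or.inr ⟨T, hT, hyT, hxT⟩
    · rcases hV S hS T hT with h2 | h2
      · exact absurd (h2 hxS) hxT
      · exact absurd (h2 hyT) hyS

theorem lt_iff (hD : ∀ A ∈ D, ∀ B ∈ D, A ⊆ B ∨ B ⊆ A)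
    (hV : ∀ A ∈ V, ∀ B ∈ V, A ⊆ B ∨ B ⊆ A)
    (h1 : @T1Space X (generateFrom (D ∪ V))) {x y : X} :
    lt' D x y ↔ ∃ B ∈ V, y ∈ B ∧ x ∉ B := by
  constructor
  · intro h
    have hxy : x ≠ y := by
      rintro rfl
      exact lt_asymm' hD h h
    obtain ⟨T, hT, hyT, hxT⟩ := exists_sub h1 hxy.symm
    rcases hT with hT | hT
    · exact absurd ⟨T, hT, hyT, hxT⟩ (lt_asymm' hD h)
    · exact ⟨T, hT, hyT, hxT⟩
  · rintro ⟨B, hB, hyB, hxB⟩
    have hxy : x ≠ y := by
      rintro rfl
      exact hxB hyB
    obtain ⟨S, hS, hxS, hyS⟩ := exists_sub h1 hxy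
    rcases hS with hS | hS
    · exact ⟨S, hS, hxS, hyS⟩
    · rcases hV S hS B hB with h2 | h2
      · exact absurd (h2 hxS) hxB
      · exact absurd (h2 hyB) hyS

theorem eq_of_le_compact_t2 {t₁ t₂ : TopologicalSpace X} (hle : t₁ ≤ t₂)
    (hc : @CompactSpace X t₁) (h2 : @T2Space X t₂) : t₁ = t₂ := by
  apply le_antisymm hle
  intro U hU
  have h3 : @IsClosed X t₁ Uᶜ := by
    rw [@isClosed_compl_iff X t₁]
    exact hU
  have h4 : @IsCompact X t₁ Uᶜ := @IsClosed.isCompact X t₁ _ hc h3
  have h5 : @IsCompact X t₂ Uᶜ := by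
    have h6 := @IsCompact.image X X t₁ t₂ _ id h4 (continuous_id_of_le hle)
    rwa [Set.image_id] at h6
  have h6 : @IsClosed X t₂ Uᶜ := @IsCompact.isClosed X t₂ h2 _ h5
  rwa [@isClosed_compl_iff X t₂] at h6

end T1M

open T1M in
theorem t1_orderable {X : Type*} {r : X → X → Prop} (hr : IsIntervalOrder r)
    (h1 : @T1Space X (relTopology r))
    (h2 : @CompactSpace X (relTopology r) ∨ @PreconnectedSpace X (relTopology r)) :
    ∃ l : LinearOrder X, relTopology r = relTopology l.lt := by
  classical
  have hdc := isDualChains hr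
  have hD := hdc.chain_left
  have hV := hdc.chain_right
  have h1' : @T1Space X (generateFrom (lowers r ∪ uppers r)) := by
    rw [← hdc.subbasis]
    exact h1
  let l : LinearOrder X :=
    { le := fun x y => x = y ∨ T1M.lt' (lowers r) x y
      lt := T1M.lt' (lowers r)
      le_refl := fun x => Or.inl rfl
      le_trans := by
        rintro x y z (rfl | h) (rfl | h')
        · exact Or.inl rfl
        · exact Or.inr h'
        · exact Or.inr h
        · exact Or.inr (T1M.lt_trans' hD h h')
      lt_iff_le_not_ge := by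
        intro x y
        constructor
        · intro h
          refine ⟨Or.inr h, ?_⟩
          rintro (rfl | h')
          · exact T1M.lt_asymm' hD h h
          · exact T1M.lt_asymm' hD h h'
        · rintro ⟨rfl | h, h'⟩
          · exact absurd (Or.inl rfl) h'
          · exact h
      le_antisymm := by
        rintro x y (rfl | h) (h' | h')
        · rfl
        · rfl
        · exact h'.symm
        · exact absurd h' (T1M.lt_asymm' hD h)
      le_total := by
        intro x y
        by_cases hxy : x = y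
        · exact Or.inl (Or.inl hxy)
        · rcases T1M.total hV h1' hxy with h | h
          · exact Or.inl (Or.inr h)
          · exact Or.inr (Or.inr h)
      toDecidableLE := fun _ _ => Classical.propDecidable _ }
  have hlt : ∀ x y, l.lt x y ↔ T1M.lt' (lowers r) x y := fun x y => Iff.rfl
  have hlt' : ∀ x y, l.lt x y ↔ ∃ B ∈ uppers r, y ∈ B ∧ x ∉ B := fun x y =>
    T1M.lt_iff hD hV h1'
  -- the rays are open
  have hup : ∀ x, IsOpen[relTopology r] (up l.lt x) := by
    intro x
    have h3 : up l.lt x = ⋃₀ {B | B ∈ uppers r ∧ x ∉ B} := by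
      ext z
      constructor
      · intro hz
        obtain ⟨B, hB, hzB, hxB⟩ := (hlt' x z).1 hz
        exact ⟨B, ⟨hB, hxB⟩, hzB⟩
      · rintro ⟨B, ⟨hB, hxB⟩, hzB⟩
        exact (hlt' x z).2 ⟨B, hB, hzB, hxB⟩
    rw [h3, hdc.subbasis]
    exact @isOpen_sUnion X (generateFrom (lowers r ∪ uppers r)) _
      fun B hB => isOpen_generateFrom_of_mem (Or.inr hB.1)
  have hdown : ∀ y, IsOpen[relTopology r] (down l.lt y) := by
    intro y
    have h3 : down l.lt y = ⋃₀ {A | A ∈ lowers r ∧ y ∉ A} := by
      ext z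
      constructor
      · rintro ⟨A, hA, hzA, hyA⟩
        exact ⟨A, ⟨hA, hyA⟩, hzA⟩
      · rintro ⟨A, ⟨hA, hyA⟩, hzA⟩
        exact ⟨A, hA, hzA, hyA⟩
    rw [h3, hdc.subbasis]
    exact @isOpen_sUnion X (generateFrom (lowers r ∪ uppers r)) _
      fun B hB => isOpen_generateFrom_of_mem (Or.inl hB.1)
  have hle : relTopology r ≤ relTopology l.lt := by
    apply le_generateFrom
    rintro S (((rfl | hS) | ⟨x, rfl⟩) | ⟨y, rfl⟩)
    · exact @isOpen_empty _ (relTopology r)
    · rw [Set.mem_singleton_iff.1 hS]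
      exact @isOpen_univ _ (relTopology r)
    · exact hup x
    · exact hdown y
  refine ⟨l, ?_⟩
  rcases h2 with h2 | h2
  · refine T1M.eq_of_le_compact_t2 hle h2 ?_
    -- the order topology is Hausdorff
    have h3 : @OrderTopology X (relTopology l.lt) _ := by
      refine @OrderTopology.mk X (relTopology l.lt) _ ?_
      apply le_antisymm
      · apply le_generateFrom
        rintro S ⟨a, rfl | rfl⟩
        · exact isOpen_generateFrom_of_mem (Or.inl (Or.inr ⟨a, rfl⟩))
        · exact isOpen_generateFrom_of_mem (Or.inr ⟨a, rfl⟩)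
      · apply le_generateFrom
        rintro S (((rfl | hS) | ⟨x, rfl⟩) | ⟨y, rfl⟩)
        · exact @isOpen_empty _ (generateFrom _)
        · rw [Set.mem_singleton_iff.1 hS]
          exact @isOpen_univ _ (generateFrom _)
        · exact isOpen_generateFrom_of_mem ⟨x, Or.inl rfl⟩
        · exact isOpen_generateFrom_of_mem ⟨y, Or.inr rfl⟩
    exact @OrderClosedTopology.to_t2Space X (relTopology l.lt) _
      (@OrderTopology.to_orderClosedTopology X (relTopology l.lt) _ h3)
  · apply le_antisymm hle
    -- every generator is open in the order topology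
    have hupper : ∀ U ∈ uppers r, ∀ p ∈ U, ∀ z, l.lt p z → z ∈ U := by
      intro U hU p hp z hz
      obtain ⟨B, hB, hzB, hpB⟩ := (hlt' p z).1 hz
      rcases hV U hU B hB with h3 | h3
      · exact absurd (h3 hp) hpB
      · exact h3 hzB
    have hlower : ∀ U ∈ lowers r, ∀ p ∈ U, ∀ z, l.lt z p → z ∈ U := by
      intro U hU p hp z hz
      obtain ⟨B, hB, hzB, hpB⟩ := (hlt z p).1 hz
      rcases hD U hU B hB with h3 | h3
      · exact absurd (h3 hp) hpB
      · exact h3 hzB
    have htot : ∀ x y : X, x = y ∨ l.lt x y ∨ l.lt y x := by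
      intro x y
      by_cases hxy : x = y
      · exact Or.inl hxy
      · exact Or.inr (T1M.total hV h1' hxy)
    have hirr : ∀ x : X, ¬ l.lt x x := fun x h => T1M.lt_asymm' hD h h
    have hclopen : ∀ U : Set X, IsOpen[relTopology r] U → IsOpen[relTopology r] Uᶜ →
        U.Nonempty → U = Set.univ := by
      intro U hU hUc hne
      have h3 : @IsClopen X (relTopology r) U :=
        ⟨(@isOpen_compl_iff X U (relTopology r)).1 hUc, hU⟩
      rcases (@isClopen_iff X (relTopology r) h2 U).1 h3 with h4 | h4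
      · rw [h4] at hne
        exact absurd hne Set.not_nonempty_empty
      · exact h4
    have hopU : ∀ U ∈ uppers r, IsOpen[relTopology l.lt] U := by
      intro U hU
      by_cases hmin : ∃ p ∈ U, ∀ q ∈ U, ¬ l.lt q p
      · obtain ⟨p, hp, hpmin⟩ := hmin
        have h3 : Uᶜ = down l.lt p := by
          ext z
          constructor
          · intro hz
            rcases htot z p with h | h | h
            · exact absurd (h ▸ hp) hz
            · exact h
            · exact absurd (hupper U hU p hp z h) hz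
          · intro hz hzU
            exact hpmin z hzU hz
        have h4 : U = Set.univ := by
          refine hclopen U ?_ ?_ ⟨p, hp⟩
          · rw [hdc.subbasis]
            exact isOpen_generateFrom_of_mem (Or.inr hU)
          · rw [h3]
            exact hdown p
        rw [h4]
        exact @isOpen_univ _ (relTopology l.lt)
      · push Not at hmin
        have h3 : U = ⋃₀ {S | ∃ p ∈ U, S = up l.lt p} := by
          ext z
          constructor
          · intro hz
            obtain ⟨q, hq, hqz⟩ := hmin z hz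
            exact ⟨_, ⟨q, hq, rfl⟩, hqz⟩
          · rintro ⟨_, ⟨p, hp, rfl⟩, hz⟩
            exact hupper U hU p hp z hz
        rw [h3]
        refine @isOpen_sUnion X (relTopology l.lt) _ ?_
        rintro _ ⟨p, -, rfl⟩
        exact isOpen_generateFrom_of_mem (Or.inl (Or.inr ⟨p, rfl⟩))
    have hopD : ∀ U ∈ lowers r, IsOpen[relTopology l.lt] U := by
      intro U hU
      by_cases hmax : ∃ p ∈ U, ∀ q ∈ U, ¬ l.lt p q
      · obtain ⟨p, hp, hpmax⟩ := hmax
        have h3 : Uᶜ = up l.lt p := by
          ext z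
          constructor
          · intro hz
            rcases htot z p with h | h | h
            · exact absurd (h ▸ hp) hz
            · exact absurd (hlower U hU p hp z h) hz
            · exact h
          · intro hz hzU
            exact hpmax z hzU hz
        have h4 : U = Set.univ := by
          refine hclopen U ?_ ?_ ⟨p, hp⟩
          · rw [hdc.subbasis]
            exact isOpen_generateFrom_of_mem (Or.inl hU)
          · rw [h3]
            exact hup p
        rw [h4]
        exact @isOpen_univ _ (relTopology l.lt)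
      · push Not at hmax
        have h3 : U = ⋃₀ {S | ∃ p ∈ U, S = down l.lt p} := by
          ext z
          constructor
          · intro hz
            obtain ⟨q, hq, hqz⟩ := hmax z hz
            exact ⟨_, ⟨q, hq, rfl⟩, hqz⟩
          · rintro ⟨_, ⟨p, hp, rfl⟩, hz⟩
            exact hlower U hU p hp z hz
        rw [h3]
        refine @isOpen_sUnion X (relTopology l.lt) _ ?_
        rintro _ ⟨p, -, rfl⟩
        exact isOpen_generateFrom_of_mem (Or.inr ⟨p, rfl⟩)
    rw [hdc.subbasis]
    apply le_generateFrom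
    rintro S (hS | hS)
    · exact hopD S hS
    · exact hopU S hS

end Pool.Agent.Lib.MP_d11cf5_gt
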