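import Pool.Agent.Lib.MP_d11cf5_gt.T1Orderable
import Pool.Agent.Lib.MP_d11cf5_gt.Segments

/-!
# `T₁` topologies induced by interval orders: the chains are the open segments of a total order
-/

set_option autoImplicit false

namespace Pool.Agent.Lib.MP_d11cf5_gt

open TopologicalSpace Topology

namespace T1S

variable {X : Type*} {τ : TopologicalSpace X} {s : X → X → Prop}

theorem strict_iff (h : IsDualOrder τ s) (x y : X) : strict s x y ↔ ¬ s y x := by
  constructor
  · exact fun h1 => h1.2
  · exact fun h1 => ⟨(h.total x y).resolve_right h1, h1⟩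

theorem isDualChains_of (h : IsDualOrder τ s) :
    ∃ (D V : Set (Set X)) (φ : Set X → Set X), IsDualChains τ D V φ := by
  obtain ⟨φ, hbij, hanti, hray⟩ := h.dual
  refine ⟨openInitial τ s, openFinal τ s, φ, ?_, ?_, ?_, ?_, h.subbasis, hbij, hanti, ?_⟩
  · intro A hA B hB
    by_contra hcon
    push Not at hcon
    obtain ⟨a, ha, ha'⟩ := Set.not_subset.1 hcon.1
    obtain ⟨b, hb, hb'⟩ := Set.not_subset.1 hcon.2
    rcases h.total a b with h1 | h1
    · exact ha' (hB.2.1 b hb a h1)
    · exact hb' (hA.2.1 a ha b h1)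
  · intro A hA B hB
    by_contra hcon
    push Not at hcon
    obtain ⟨a, ha, ha'⟩ := Set.not_subset.1 hcon.1
    obtain ⟨b, hb, hb'⟩ := Set.not_subset.1 hcon.2
    rcases h.total a b with h1 | h1
    · exact hb' (hA.2.1 a ha b h1)
    · exact ha' (hB.2.1 b hb a h1)
  · intro F hF
    refine ⟨isOpen_sUnion fun A hA => (hF hA).1, ?_, ?_⟩
    · rintro a ⟨A, hA, ha⟩ b hb
      exact ⟨A, hA, (hF hA).2.1 a ha b hb⟩
    · rintro hU ⟨m, hm⟩
      obtain ⟨A, hA, hmA⟩ : m ∈ ⋃₀ F := by
        rw [hU]
        exact Set.mem_univ m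
      refine (hF hA).2.2 ?_ ⟨m, hm⟩
      exact Set.eq_univ_of_forall fun x => (hF hA).2.1 m hmA x (hm x)
  · intro F hF
    refine ⟨isOpen_sUnion fun A hA => (hF hA).1, ?_, ?_⟩
    · rintro a ⟨A, hA, ha⟩ b hb
      exact ⟨A, hA, (hF hA).2.1 a ha b hb⟩
    · rintro hU ⟨m, hm⟩
      obtain ⟨A, hA, hmA⟩ : m ∈ ⋃₀ F := by
        rw [hU]
        exact Set.mem_univ m
      refine (hF hA).2.2 ?_ ⟨m, hm⟩
      exact Set.eq_univ_of_forall fun x => (hF hA).2.1 m hmA x (hm x)
  · intro x
    have hx : x ∉ {y | strict s y x} := fun h1 => h1.2 h1.1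
    refine ⟨{y | strict s y x}, ⟨(h.rays x).2, ?_, ?_⟩, ?_⟩
    · intro a ha b hb
      have ha' : strict s a x := ha
      show strict s b x
      rw [strict_iff h] at ha' ⊢
      exact fun h1 => ha' (h.trans _ _ _ h1 hb)
    · intro h1
      rw [h1] at hx
      exact absurd (Set.mem_univ x) hx
    · rintro (h1 | h1)
      · exact hx h1
      · have h2 : strict s x x := hray x h1
        exact h2.2 h2.1

variable {r : X → X → Prop}

theorem lt_of_rel (hr : IsIntervalOrder r) {x y : X} (h : r x y) : T1M.lt' (lowers r) x y :=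
  ⟨down r y, fun b hb => ⟨y, hb, Set.Subset.refl _⟩, h, hr.irrefl y⟩

/-- The order of a `T₁` topology induced by an interval order. -/
def ord (r : X → X → Prop) (x y : X) : Prop := x = y ∨ T1M.lt' (lowers r) x y

theorem local_base (hr : IsIntervalOrder r) {U : Set X} (hU : IsOpen[relTopology r] U) :
    ∀ a ∈ U, ∃ L M : Set X, (L ∈ lowers r ∨ L = Set.univ) ∧ (M ∈ uppers r ∨ M = Set.univ) ∧
      a ∈ L ∧ a ∈ M ∧ L ∩ M ⊆ U := by
  have hdc := isDualChains hr
  have hU' : GenerateOpen (lowers r ∪ uppers r) U := by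
    rw [hdc.subbasis] at hU
    exact hU
  clear hU
  induction hU' with
  | basic S hS =>
    intro a ha
    rcases hS with hS | hS
    · exact ⟨S, Set.univ, Or.inl hS, Or.inr rfl, ha, Set.mem_univ a, Set.inter_subset_left⟩
    · exact ⟨Set.univ, S, Or.inr rfl, Or.inl hS, Set.mem_univ a, ha, Set.inter_subset_right⟩
  | univ =>
    intro a _
    exact ⟨Set.univ, Set.univ, Or.inr rfl, Or.inr rfl, Set.mem_univ a, Set.mem_univ a,
      Set.subset_univ _⟩
  | inter S T _ _ ihS ihT =>
    rintro a ⟨haS, haT⟩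
    obtain ⟨L, M, hL, hM, haL, haM, h1⟩ := ihS a haS
    obtain ⟨L', M', hL', hM', haL', haM', h2⟩ := ihT a haT
    have key : ∀ (C : Set (Set X)) (_ : ∀ A ∈ C, ∀ B ∈ C, A ⊆ B ∨ B ⊆ A) (P Q : Set X),
        (P ∈ C ∨ P = Set.univ) → (Q ∈ C ∨ Q = Set.univ) → a ∈ P → a ∈ Q →
        ∃ R, (R ∈ C ∨ R = Set.univ) ∧ a ∈ R ∧ R ⊆ P ∧ R ⊆ Q := by
      intro C hC P Q hP hQ haP haQ
      rcases hP with hP | rfl
      · rcases hQ with hQ | rfl
        · rcases hC P hP Q hQ with h3 | h3
          · exact ⟨P, Or.inl hP, haP, Set.Subset.refl _, h3⟩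
          · exact ⟨Q, Or.inl hQ, haQ, h3, Set.Subset.refl _⟩
        · exact ⟨P, Or.inl hP, haP, Set.Subset.refl _, Set.subset_univ _⟩
      · exact ⟨Q, hQ, haQ, Set.subset_univ _, Set.Subset.refl _⟩
    obtain ⟨L₀, hL₀, haL₀, hLL, hLL'⟩ := key _ hdc.chain_left L L' hL hL' haL haL'
    obtain ⟨M₀, hM₀, haM₀, hMM, hMM'⟩ := key _ hdc.chain_right M M' hM hM' haM haM'
    refine ⟨L₀, M₀, hL₀, hM₀, haL₀, haM₀, fun z hz => ⟨?_, ?_⟩⟩
    · exact h1 ⟨hLL hz.1, hMM hz.2⟩
    · exact h2 ⟨hLL' hz.1, hMM' hz.2⟩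
  | sUnion F _ ih =>
    rintro a ⟨S, hS, haS⟩
    obtain ⟨L, M, hL, hM, haL, haM, h1⟩ := ih S hS a haS
    exact ⟨L, M, hL, hM, haL, haM, h1.trans (Set.subset_sUnion_of_mem hS)⟩

end T1S

open T1M T1S in
theorem t1_isDualOrder {X : Type*} {r : X → X → Prop} (hr : IsIntervalOrder r)
    (h1 : @T1Space X (relTopology r)) : IsDualOrder (relTopology r) (T1S.ord r) := by
  classical
  have hdc := isDualChains hr
  have hD := hdc.chain_left
  have hV := hdc.chain_right
  have h1' : @T1Space X (generateFrom (lowers r ∪ uppers r)) := by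
    rw [← hdc.subbasis]
    exact h1
  have hstrict : ∀ x y, strict (T1S.ord r) x y ↔ lt' (lowers r) x y := by
    intro x y
    constructor
    · rintro ⟨rfl | h, h'⟩
      · exact absurd (Or.inl rfl) h'
      · exact h
    · intro h
      refine ⟨Or.inr h, ?_⟩
      rintro (rfl | h')
      · exact lt_asymm' hD h h
      · exact lt_asymm' hD h h'
  have hopL : ∀ S ∈ lowers r, IsOpen[relTopology r] S := by
    intro S hS
    rw [hdc.subbasis]
    exact isOpen_generateFrom_of_mem (Or.inl hS)
  have hopU : ∀ S ∈ uppers r, IsOpen[relTopology r] S := by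
    intro S hS
    rw [hdc.subbasis]
    exact isOpen_generateFrom_of_mem (Or.inr hS)
  -- members of the chains are segments
  have hlow : ∀ L ∈ lowers r, ∀ a ∈ L, ∀ b, T1S.ord r b a → b ∈ L := by
    rintro L hL a ha b (rfl | ⟨A, hA, hbA, haA⟩)
    · exact ha
    · rcases hD L hL A hA with h3 | h3
      · exact absurd (h3 ha) haA
      · exact h3 hbA
  have hupp : ∀ M ∈ uppers r, ∀ a ∈ M, ∀ b, T1S.ord r a b → b ∈ M := by
    rintro M hM a ha b (rfl | hab)
    · exact ha
    · obtain ⟨B, hB, hbB, haB⟩ := (lt_iff hD hV h1').1 hab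
      rcases hV M hM B hB with h3 | h3
      · exact absurd (h3 ha) haB
      · exact h3 hbB
  have htot : ∀ x y : X, x = y ∨ lt' (lowers r) x y ∨ lt' (lowers r) y x := by
    intro x y
    by_cases hxy : x = y
    · exact Or.inl hxy
    · exact Or.inr (total hV h1' hxy)
  -- the chain of the lower sets
  have hI : openInitial (relTopology r) (T1S.ord r) = lowers r := by
    ext A
    constructor
    · rintro ⟨hA, hseg, huniv⟩ a ha
      by_cases hmax : ∃ b ∈ A, lt' (lowers r) a b
      · obtain ⟨b, hb, L, hL, haL, hbL⟩ := hmax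
        obtain ⟨y, hy, hyL⟩ := hL a haL
        refine ⟨y, hy, hyL.trans ?_⟩
        intro z hz
        rcases htot z b with h | h | h
        · rw [h]
          exact hb
        · exact hseg b hb z (Or.inr h)
        · exact absurd (hlow L hL z hz b (Or.inr h)) hbL
      · push Not at hmax
        obtain ⟨L, M, hL, hM, haL, haM, hLM⟩ := local_base hr hA a ha
        have hLA : L ⊆ A := by
          intro z hz
          rcases htot z a with h | h | h
          · rw [h]
            exact ha
          · exact hseg a ha z (Or.inr h)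
          · refine hLM ⟨hz, ?_⟩
            rcases hM with hM | rfl
            · exact hupp M hM a haM z (Or.inr h)
            · exact Set.mem_univ z
        rcases hL with hL | rfl
        · obtain ⟨y, hy, hyL⟩ := hL a haL
          exact ⟨y, hy, hyL.trans hLA⟩
        · exfalso
          have hAu : A = Set.univ := Set.univ_subset_iff.1 hLA
          apply huniv hAu
          refine ⟨a, fun x => ?_⟩
          rcases htot x a with h | h | h
          · exact Or.inl h
          · exact Or.inr h
          · exact absurd h (hmax x (by rw [hAu]; exact Set.mem_univ x))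
    · intro hA
      refine ⟨hopL A hA, hlow A hA, ?_⟩
      rintro hAu ⟨m, hm⟩
      obtain ⟨y, hy, -⟩ := hA m (by rw [hAu]; exact Set.mem_univ m)
      have h3 := lt_of_rel hr hy
      rcases hm y with h4 | h4
      · rw [h4] at h3
        exact lt_asymm' hD h3 h3
      · exact lt_asymm' hD h3 h4
  have hF : openFinal (relTopology r) (T1S.ord r) = uppers r := by
    ext B
    constructor
    · rintro ⟨hB, hseg, huniv⟩ a ha
      by_cases hmin : ∃ b ∈ B, lt' (lowers r) b a
      · obtain ⟨b, hb, hba⟩ := hmin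
        obtain ⟨M, hM, haM, hbM⟩ := (lt_iff hD hV h1').1 hba
        obtain ⟨x, hx, hxM⟩ := hM a haM
        refine ⟨x, hx, hxM.trans ?_⟩
        intro z hz
        rcases htot z b with h | h | h
        · rw [h]
          exact hb
        · exact absurd (hupp M hM z hz b (Or.inr h)) hbM
        · exact hseg b hb z (Or.inr h)
      · push Not at hmin
        obtain ⟨L, M, hL, hM, haL, haM, hLM⟩ := local_base hr hB a ha
        have hMB : M ⊆ B := by
          intro z hz
          rcases htot z a with h | h | h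
          · rw [h]
            exact ha
          · refine hLM ⟨?_, hz⟩
            rcases hL with hL | rfl
            · exact hlow L hL a haL z (Or.inr h)
            · exact Set.mem_univ z
          · exact hseg a ha z (Or.inr h)
        rcases hM with hM | rfl
        · obtain ⟨x, hx, hxM⟩ := hM a haM
          exact ⟨x, hx, hxM.trans hMB⟩
        · exfalso
          have hBu : B = Set.univ := Set.univ_subset_iff.1 hMB
          apply huniv hBu
          refine ⟨a, fun x => ?_⟩
          rcases htot x a with h | h | h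
          · exact Or.inl h.symm
          · exact absurd h (hmin x (by rw [hBu]; exact Set.mem_univ x))
          · exact Or.inr h
    · intro hB
      refine ⟨hopU B hB, hupp B hB, ?_⟩
      rintro hBu ⟨m, hm⟩
      obtain ⟨x, hx, -⟩ := hB m (by rw [hBu]; exact Set.mem_univ m)
      have h3 := lt_of_rel hr hx
      rcases hm x with h4 | h4
      · rw [← h4] at h3
        exact lt_asymm' hD h3 h3
      · exact lt_asymm' hD h3 h4
  refine ⟨?_, ?_, ?_, ?_, ?_, opp r, ?_, ?_, ?_⟩
  · intro x y
    rcases htot x y with h | h | h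
    · exact Or.inl (Or.inl h)
    · exact Or.inl (Or.inr h)
    · exact Or.inr (Or.inr h)
  · rintro x y z (rfl | h) (rfl | h')
    · exact Or.inl rfl
    · exact Or.inr h'
    · exact Or.inr h
    · exact Or.inr (lt_trans' hD h h')
  · rintro x y (rfl | h) (h' | h')
    · rfl
    · rfl
    · exact h'.symm
    · exact absurd h' (lt_asymm' hD h)
  · intro x
    constructor
    · have h3 : {y | strict (T1S.ord r) x y} = ⋃₀ {B | B ∈ uppers r ∧ x ∉ B} := by
        ext z
        rw [Set.mem_ofPred_eq, hstrict, lt_iff hD hV h1']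
        constructor
        · rintro ⟨B, hB, hzB, hxB⟩
          exact ⟨B, ⟨hB, hxB⟩, hzB⟩
        · rintro ⟨B, ⟨hB, hxB⟩, hzB⟩
          exact ⟨B, hB, hzB, hxB⟩
      rw [h3]
      exact hopU _ (hdc.union_right _ fun B hB => hB.1)
    · have h3 : {y | strict (T1S.ord r) y x} = ⋃₀ {A | A ∈ lowers r ∧ x ∉ A} := by
        ext z
        rw [Set.mem_ofPred_eq, hstrict]
        constructor
        · rintro ⟨A, hA, hzA, hyA⟩
          exact ⟨A, ⟨hA, hyA⟩, hzA⟩
        · rintro ⟨A, ⟨hA, hyA⟩, hzA⟩
          exact ⟨A, hA, hzA, hyA⟩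
      rw [h3]
      exact hopL _ (hdc.union_left _ fun B hB => hB.1)
  · rw [hI, hF]
    exact hdc.subbasis
  · rw [hI, hF]
    exact hdc.bij
  · rw [hI]
    exact hdc.anti
  · rintro x z ⟨w, hw, hz⟩
    show strict (T1S.ord r) x z
    rw [hstrict]
    have h3 := lt_of_rel hr hz
    have hw' : ¬ lt' (lowers r) w x := fun h => hw ((hstrict w x).2 h)
    rcases htot w x with h | h | h
    · rw [← h]
      exact h3
    · exact absurd h hw'
    · exact lt_trans' hD h h3

end Pool.Agent.Lib.MP_d11cf5_gt
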