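import Pool.Agent.Lib.MP_d11cf5_gt.DualChains

/-!
# Topologies induced by interval orders and semiorders: two chains of open sets

The criterion: `τ` is induced by an interval order if and only if it has a subbasis `D ∪ V`, where
`D` and `V` are chains of sets closed under arbitrary unions, with an order reversing bijection
`φ : D → V` such that no point lies in all the sets `A ∪ φ A` with `A ∈ D`. It is induced by a
semiorder if and only if moreover any two sets `A ∈ D`, `B ∈ V` are disjoint or cover `X`.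
-/

set_option autoImplicit false

namespace Pool.Agent.Lib.MP_d11cf5_gt

open TopologicalSpace Topology

variable {X : Type*}

section Forward

variable {r : X → X → Prop}

/-- The unions of lower sets `L_r(y)`. -/
def lowers (r : X → X → Prop) : Set (Set X) := {A | ∀ a ∈ A, ∃ y, r a y ∧ down r y ⊆ A}

/-- The unions of upper sets `U_r(x)`. -/
def uppers (r : X → X → Prop) : Set (Set X) := {B | ∀ b ∈ B, ∃ x, r x b ∧ up r x ⊆ B}

/-- The union of the sets `U_r(x)` with `x ∉ A`. -/
def opp (r : X → X → Prop) (A : Set X) : Set X := {z | ∃ x, x ∉ A ∧ r x z}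

/-- The union of the sets `L_r(y)` with `y ∉ B`. -/
def opp' (r : X → X → Prop) (B : Set X) : Set X := {z | ∃ y, y ∉ B ∧ r z y}

theorem opp_mem (A : Set X) : opp r A ∈ uppers r := by
  rintro b ⟨x, hx, hb⟩
  exact ⟨x, hb, fun z hz => ⟨x, hx, hz⟩⟩

theorem opp'_mem (B : Set X) : opp' r B ∈ lowers r := by
  rintro a ⟨y, hy, ha⟩
  exact ⟨y, ha, fun z hz => ⟨y, hy, hz⟩⟩

theorem opp'_opp {A : Set X} (hA : A ∈ lowers r) : opp' r (opp r A) = A := by
  ext z
  constructor
  · rintro ⟨y, hy, hz⟩
    by_contra hcon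
    exact hy ⟨z, hcon, hz⟩
  · intro hz
    obtain ⟨y, hy, hyA⟩ := hA z hz
    refine ⟨y, ?_, hy⟩
    rintro ⟨x, hx, hxy⟩
    exact hx (hyA hxy)

theorem opp_opp' {B : Set X} (hB : B ∈ uppers r) : opp r (opp' r B) = B := by
  ext z
  constructor
  · rintro ⟨x, hx, hz⟩
    by_contra hcon
    exact hx ⟨z, hcon, hz⟩
  · intro hz
    obtain ⟨x, hx, hxB⟩ := hB z hz
    refine ⟨x, ?_, hx⟩
    rintro ⟨y, hy, hxy⟩
    exact hy (hxB hxy)

theorem down_linear (h : IsIntervalOrder r) {y z a : X} (ha : r a y) (ha' : ¬ r a z) :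
    down r z ⊆ down r y := by
  intro b hb
  rcases h.cross b z a y hb ha with h1 | h1
  · exact h1
  · exact absurd h1 ha'

theorem up_linear (h : IsIntervalOrder r) {x z a : X} (ha : r x a) (ha' : ¬ r z a) :
    up r z ⊆ up r x := by
  intro b hb
  rcases h.cross x a z b ha hb with h1 | h1
  · exact h1
  · exact absurd h1 ha'

theorem isDualChains (h : IsIntervalOrder r) :
    IsDualChains (relTopology r) (lowers r) (uppers r) (opp r) where
  chain_left := by
    intro A hA B hB
    by_contra hcon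
    push Not at hcon
    obtain ⟨a, ha, ha'⟩ := Set.not_subset.1 hcon.1
    apply hcon.2
    intro b hb
    obtain ⟨y, hy, hyA⟩ := hA a ha
    obtain ⟨z, hz, hzB⟩ := hB b hb
    exact hyA (down_linear h hy (fun h1 => ha' (hzB h1)) hz)
  chain_right := by
    intro A hA B hB
    by_contra hcon
    push Not at hcon
    obtain ⟨a, ha, ha'⟩ := Set.not_subset.1 hcon.1
    apply hcon.2
    intro b hb
    obtain ⟨y, hy, hyA⟩ := hA a ha
    obtain ⟨z, hz, hzB⟩ := hB b hb
    exact hyA (up_linear h hy (fun h1 => ha' (hzB h1)) hz)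
  union_left := by
    rintro S hS a ⟨A, hA, ha⟩
    obtain ⟨y, hy, hyA⟩ := hS hA a ha
    exact ⟨y, hy, hyA.trans (Set.subset_sUnion_of_mem hA)⟩
  union_right := by
    rintro S hS a ⟨A, hA, ha⟩
    obtain ⟨y, hy, hyA⟩ := hS hA a ha
    exact ⟨y, hy, hyA.trans (Set.subset_sUnion_of_mem hA)⟩
  subbasis := by
    apply le_antisymm
    · apply le_generateFrom
      rintro S (hS | hS)
      · have : S = ⋃ p : {y // down r y ⊆ S}, down r p.1 := by
          ext a
          rw [Set.mem_iUnion]
          constructor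
          · intro ha
            obtain ⟨y, hy, hyS⟩ := hS a ha
            exact ⟨⟨y, hyS⟩, hy⟩
          · rintro ⟨⟨y, hyS⟩, ha⟩
            exact hyS ha
        rw [this]
        let _ := relTopology r
        exact isOpen_iUnion fun p => isOpen_generateFrom_of_mem (Or.inr ⟨p.1, rfl⟩)
      · have : S = ⋃ p : {x // up r x ⊆ S}, up r p.1 := by
          ext a
          rw [Set.mem_iUnion]
          constructor
          · intro ha
            obtain ⟨y, hy, hyS⟩ := hS a ha
            exact ⟨⟨y, hyS⟩, hy⟩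
          · rintro ⟨⟨y, hyS⟩, ha⟩
            exact hyS ha
        rw [this]
        let _ := relTopology r
        exact isOpen_iUnion fun p => isOpen_generateFrom_of_mem (Or.inl (Or.inr ⟨p.1, rfl⟩))
    · apply le_generateFrom
      rintro S (((rfl | hS) | ⟨x, rfl⟩) | ⟨y, rfl⟩)
      · exact @isOpen_empty _ (generateFrom (lowers r ∪ uppers r))
      · rw [Set.mem_singleton_iff.1 hS]
        exact @isOpen_univ _ (generateFrom (lowers r ∪ uppers r))
      · exact isOpen_generateFrom_of_mem (Or.inr fun b hb => ⟨x, hb, Set.Subset.refl _⟩)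
      · exact isOpen_generateFrom_of_mem (Or.inl fun b hb => ⟨y, hb, Set.Subset.refl _⟩)
  bij := by
    refine ⟨fun A _ => opp_mem A, ?_, ?_⟩
    · intro A hA B hB hAB
      rw [← opp'_opp hA, ← opp'_opp hB]
      exact congrArg _ hAB
    · intro B hB
      exact ⟨opp' r B, opp'_mem B, opp_opp' hB⟩
  anti := by
    rintro A - B - hAB z ⟨x, hx, hz⟩
    exact ⟨x, fun h1 => hx (hAB h1), hz⟩
  missed := by
    intro x
    refine ⟨{z | ∃ y, r z y ∧ ¬ r x y}, ?_, ?_⟩
    · rintro a ⟨y, hy, hxy⟩
      exact ⟨y, hy, fun z hz => ⟨y, hz, hxy⟩⟩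
    · rintro (⟨y, hy, hxy⟩ | ⟨w, hw, hwx⟩)
      · exact hxy hy
      · exact hw ⟨x, hwx, h.irrefl x⟩

theorem disjoint_or_cover (h : IsSemiorder r) {A B : Set X} (hA : A ∈ lowers r)
    (hB : B ∈ uppers r) : Disjoint A B ∨ A ∪ B = Set.univ := by
  by_cases hd : Disjoint A B
  · exact Or.inl hd
  · right
    rw [Set.not_disjoint_iff] at hd
    obtain ⟨z, hzA, hzB⟩ := hd
    obtain ⟨y, hy, hyA⟩ := hA z hzA
    obtain ⟨x, hx, hxB⟩ := hB z hzB
    rw [Set.eq_univ_iff_forall]
    intro w
    rcases h.semi x z y w hx hy with h1 | h1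
    · exact Or.inr (hxB h1)
    · exact Or.inl (hyA h1)

end Forward

section Backward

/-- The relation defined by a family of pairs `(A, φ A)`. -/
def pairRel (D : Set (Set X)) (φ : Set X → Set X) (x y : X) : Prop :=
  ∀ A ∈ D, x ∈ A ∨ y ∈ φ A

variable {τ : TopologicalSpace X} {D V : Set (Set X)} {φ : Set X → Set X}

namespace IsDualChains

variable (h : IsDualChains τ D V φ)
include h

theorem anti_iff {A B : Set X} (hA : A ∈ D) (hB : B ∈ D) : A ⊆ B ↔ φ B ⊆ φ A := by
  refine ⟨h.anti A hA B hB, fun h1 => ?_⟩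
  rcases h.chain_left A hA B hB with h2 | h2
  · exact h2
  · have h3 : φ A = φ B := Set.Subset.antisymm (h.anti B hB A hA h2) h1
    rw [h.bij.injOn hA hB h3]

theorem isIntervalOrder : IsIntervalOrder (pairRel D φ) where
  irrefl x hx := by
    obtain ⟨A, hA, hxA⟩ := h.missed x
    exact hxA (hx A hA)
  cross x y z w hxy hzw := by
    by_contra hcon
    unfold pairRel at hcon
    push Not at hcon
    obtain ⟨⟨A, hA, hxA, hwA⟩, B, hB, hzB, hyB⟩ := hcon
    rcases h.chain_left A hA B hB with h1 | h1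
    · rcases hzw A hA with h2 | h2
      · exact hzB (h1 h2)
      · exact hwA h2
    · rcases hxy B hB with h2 | h2
      · exact hxA (h1 h2)
      · exact hyB h2

/-- The greatest member of `D` that does not contain `x`. -/
theorem exists_great (x : X) : ∃ G ∈ D, x ∉ G ∧ ∀ A ∈ D, x ∉ A → A ⊆ G := by
  refine ⟨⋃₀ {A | A ∈ D ∧ x ∉ A}, h.union_left _ fun A hA => hA.1, ?_, ?_⟩
  · rintro ⟨A, hA, hx⟩
    exact hA.2 hx
  · intro A hA hx
    exact Set.subset_sUnion_of_mem (show A ∈ {A | A ∈ D ∧ x ∉ A} from ⟨hA, hx⟩)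

/-- The least member of `D` whose image under `φ` does not contain `y`. -/
theorem exists_least (y : X) : ∃ R ∈ D, y ∉ φ R ∧ ∀ A ∈ D, y ∉ φ A → R ⊆ A := by
  obtain ⟨R, hR, hR'⟩ := h.bij.surjOn
    (h.union_right {B | B ∈ V ∧ y ∉ B} fun B hB => hB.1)
  refine ⟨R, hR, ?_, ?_⟩
  · rw [hR']
    rintro ⟨B, hB, hy⟩
    exact hB.2 hy
  · intro A hA hy
    rw [h.anti_iff hR hA, hR']
    exact Set.subset_sUnion_of_mem (show φ A ∈ {B | B ∈ V ∧ y ∉ B} from ⟨h.bij.mapsTo hA, hy⟩)

theorem down_mem (y : X) : down (pairRel D φ) y ∈ D := by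
  obtain ⟨R, hR, hy, hmin⟩ := h.exists_least y
  have : down (pairRel D φ) y = R := by
    ext x
    constructor
    · intro hx
      exact (hx R hR).resolve_right hy
    · intro hx A hA
      by_cases hyA : y ∈ φ A
      · exact Or.inr hyA
      · exact Or.inl (hmin A hA hyA hx)
  rw [this]
  exact hR

theorem up_mem (x : X) : up (pairRel D φ) x ∈ V := by
  obtain ⟨G, hG, hx, hmax⟩ := h.exists_great x
  have : up (pairRel D φ) x = φ G := by
    ext y
    constructor
    · intro hy
      exact (hy G hG).resolve_left hx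
    · intro hy A hA
      by_cases hxA : x ∈ A
      · exact Or.inl hxA
      · exact Or.inr (h.anti A hA G hG (hmax A hA hxA) hy)
  rw [this]
  exact h.bij.mapsTo hG

theorem mem_lowers {A : Set X} (hA : A ∈ D) {z : X} (hz : z ∈ A) :
    ∃ y, pairRel D φ z y ∧ down (pairRel D φ) y ⊆ A := by
  obtain ⟨G, hG, hzG, hmax⟩ := h.exists_great z
  have h1 : ¬ A ⊆ G := fun h2 => hzG (h2 hz)
  rw [h.anti_iff hA hG, Set.not_subset] at h1
  obtain ⟨y, hy, hy'⟩ := h1
  refine ⟨y, ?_, fun x hx => (hx A hA).resolve_right hy'⟩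
  intro B hB
  by_cases hzB : z ∈ B
  · exact Or.inl hzB
  · exact Or.inr (h.anti B hB G hG (hmax B hB hzB) hy)

theorem mem_uppers {A : Set X} (hA : A ∈ D) {z : X} (hz : z ∈ φ A) :
    ∃ x, pairRel D φ x z ∧ up (pairRel D φ) x ⊆ φ A := by
  obtain ⟨R, hR, hzR, hmin⟩ := h.exists_least z
  have h1 : ¬ R ⊆ A := by
    intro h2
    exact hzR (h.anti R hR A hA h2 hz)
  rw [Set.not_subset] at h1
  obtain ⟨x, hx, hx'⟩ := h1
  refine ⟨x, ?_, fun y hy => (hy A hA).resolve_left hx'⟩
  intro B hB
  by_cases hzB : z ∈ φ B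
  · exact Or.inr hzB
  · exact Or.inl (hmin B hB hzB hx)

theorem topology_eq : τ = relTopology (pairRel D φ) := by
  refine h.subbasis.trans ?_
  apply le_antisymm
  · apply le_generateFrom
    rintro S (((rfl | hS) | ⟨x, rfl⟩) | ⟨y, rfl⟩)
    · exact @isOpen_empty _ (generateFrom (D ∪ V))
    · rw [Set.mem_singleton_iff.1 hS]
      exact @isOpen_univ _ (generateFrom (D ∪ V))
    · exact isOpen_generateFrom_of_mem (Or.inr (h.up_mem x))
    · exact isOpen_generateFrom_of_mem (Or.inl (h.down_mem y))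
  · apply le_generateFrom
    rintro S (hS | hS)
    · have : S = ⋃ p : {y // down (pairRel D φ) y ⊆ S}, down (pairRel D φ) p.1 := by
        ext a
        rw [Set.mem_iUnion]
        constructor
        · intro ha
          obtain ⟨y, hy, hyS⟩ := h.mem_lowers hS ha
          exact ⟨⟨y, hyS⟩, hy⟩
        · rintro ⟨⟨y, hyS⟩, ha⟩
          exact hyS ha
      rw [this]
      let _ := relTopology (pairRel D φ)
      exact isOpen_iUnion fun p => isOpen_generateFrom_of_mem (Or.inr ⟨p.1, rfl⟩)
    · obtain ⟨A, hA, rfl⟩ := h.bij.surjOn hS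
      have : φ A = ⋃ p : {x // up (pairRel D φ) x ⊆ φ A}, up (pairRel D φ) p.1 := by
        ext a
        rw [Set.mem_iUnion]
        constructor
        · intro ha
          obtain ⟨y, hy, hyS⟩ := h.mem_uppers hA ha
          exact ⟨⟨y, hyS⟩, hy⟩
        · rintro ⟨⟨y, hyS⟩, ha⟩
          exact hyS ha
      rw [this]
      let _ := relTopology (pairRel D φ)
      exact isOpen_iUnion fun p => isOpen_generateFrom_of_mem (Or.inl (Or.inr ⟨p.1, rfl⟩))

theorem isSemiorder (hs : ∀ A ∈ D, ∀ B ∈ V, Disjoint A B ∨ A ∪ B = Set.univ) :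
    IsSemiorder (pairRel D φ) where
  toIsIntervalOrder := h.isIntervalOrder
  semi x y z w hxy hyz := by
    rcases hs _ (h.down_mem z) _ (h.up_mem x) with h1 | h1
    · exact absurd (show y ∈ up (pairRel D φ) x from hxy) (Set.disjoint_left.1 h1 hyz)
    · have h2 : w ∈ down (pairRel D φ) z ∪ up (pairRel D φ) x := by
        rw [h1]
        exact Set.mem_univ w
      rcases h2 with h2 | h2
      · exact Or.inr h2
      · exact Or.inl h2

end IsDualChains

end Backward

/-- If two chains form a subbasis of a `T₁` topology, then any set of the first chain and any set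
of the second chain are disjoint or cover the space. -/
theorem disjoint_or_cover_of_t1 {D V : Set (Set X)} (hD : ∀ A ∈ D, ∀ B ∈ D, A ⊆ B ∨ B ⊆ A)
    (hV : ∀ A ∈ V, ∀ B ∈ V, A ⊆ B ∨ B ⊆ A) (h1 : @T1Space X (generateFrom (D ∪ V)))
    {A B : Set X} (hA : A ∈ D) (hB : B ∈ V) : Disjoint A B ∨ A ∪ B = Set.univ := by
  let _ : TopologicalSpace X := generateFrom (D ∪ V)
  by_cases hd : Disjoint A B
  · exact Or.inl hd
  · right
    rw [Set.not_disjoint_iff] at hd
    obtain ⟨z, hzA, hzB⟩ := hd
    rw [Set.eq_univ_iff_forall]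
    intro w
    by_contra hw
    rw [Set.mem_union, not_or] at hw
    have hwz : w ≠ z := fun h2 => hw.1 (h2 ▸ hzA)
    -- every subbasic set that contains `w` contains `z`
    have hsub : ∀ S ∈ D ∪ V, w ∈ S → z ∈ S := by
      rintro S (hS | hS) hwS
      · rcases hD A hA S hS with h2 | h2
        · exact h2 hzA
        · exact absurd (h2 hwS) hw.1
      · rcases hV B hB S hS with h2 | h2
        · exact h2 hzB
        · exact absurd (h2 hwS) hw.2
    have hall : ∀ S : Set X, IsOpen S → w ∈ S → z ∈ S := by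
      intro S hS
      induction hS with
      | basic S hS => exact hsub S hS
      | univ => exact fun _ => Set.mem_univ z
      | inter S T _ _ ihS ihT => exact fun h2 => ⟨ihS h2.1, ihT h2.2⟩
      | sUnion F _ ih =>
        rintro ⟨S, hS, hwS⟩
        exact ⟨S, hS, ih S hS hwS⟩
    have h2 := hall ({z}ᶜ) (isOpen_compl_singleton) (by simpa using hwz)
    exact h2 rfl

end Pool.Agent.Lib.MP_d11cf5_gt
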